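import Pool.Agent.Helper47.DG.Dens

/-!
# DG-B5: the truncated sums over one block

Induction on `S`, for all level functions `R` at the same time. Write `L R = ∑_{r ∈ A} R r` and
`A⁺ = {r ∈ A : 1 ≤ R r}`; for `B ⊆ A⁺` let `R - 1_B` be `R` diminished by `1` on `B`.

`S = ∅`: `Atr (R r) ∅ _ = 1` (`Helper13.Om.Atr_empty`), so `Fb = 1`, take `E = 1`
(`nice_per` with `d = 1`, and `NiceX.mono`).

`S' = insert q S`: by `Helper13.Om.Atr_insert` (level `R r = (R r - 1) + 1`) for `r ∈ A⁺` and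
`Atr_zero` for `R r = 0`:
`Atr (R r) S' g = Atr (R r) S g - [R r ≥ 1] g q * Atr (R r - 1) S g`, hence (expansion of the
product, `Finset.prod_sub` or `Finset.prod_add`)
`Fb A R S' x = ∑_{B ⊆ A⁺} (-1)^|B| (∏_{r ∈ B} ind_r x q) * Fb A (R - 1_B) S x`.
The function `∏_{r ∈ B} ind_r · q` is `NiceX {q} 1 q (rho B)` for `B ≠ ∅` and `NiceX {q} 1 1 1` for
`B = ∅` (`nice_per`). With `NiceX.mul` and the induction hypothesis the `B` term is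
`NiceX S' ((1 + #S)^(L R - |B|)) (q * Z^(L R - |B|)) (rho B * E_{R - 1_B})`, and
`q * Z^(L R - |B|) ≤ Z^(L R)` for `B ≠ ∅` (`|B| ≤ L R`, `q ≤ Z`, `1 ≤ Z`). `nice_linX` over
`B ∈ A⁺.powerset`: the mass is `∑_B (1 + #S)^(L R - |B|) ≤ (2 + #S)^(L R)`, because
`∑_{B ⊆ A⁺} a^(|A⁺| - |B|) = (1 + a)^|A⁺|` (`Finset.sum_pow_mul_eq_add_pow`), `L R ≥ |A⁺|` and
`a = 1 + #S ≤ 1 + a`. So `E := ∑_{B ⊆ A⁺} (-1)^|B| rho B * E_{R - 1_B}`.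

The estimate: let `P = ∏_{q' ∈ S} sgm q'` (`0 ≤ P ≤ 1`), `Π = ∏_{q' ∈ S} (1 + y w_{q'}) ≥ 1`,
`w = ∑_{B ≠ ∅} rho B ≥ 0`, `T R = ∑_{r ∈ A} y⁻¹^(R r + 1)`. As `sgm q = ∑_{B ⊆ A} (-1)^|B| rho B`,
`E - sgm q * P = ∑_{B ⊆ A⁺} (-1)^|B| rho B (E_{R - 1_B} - P) - ∑_{B ⊆ A, B ⊄ A⁺} (-1)^|B| rho B P`.
For `B = ∅`: at most `T R * Π`. For `∅ ≠ B ⊆ A⁺`: at most `rho B * T (R - 1_B) * Π` and
`T (R - 1_B) ≤ y * T R` as `y ≥ 1` (each term is multiplied by `1` or `y`). For `B ⊄ A⁺`: some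
`r ∈ B` has `R r = 0`, so `1 ≤ y * T R` and the term is at most `rho B ≤ rho B * y * T R * Π`.
Together `≤ T R * Π * (1 + y w_q)`.
-/

set_option autoImplicit false

namespace DG

open Finset Filter Topology

theorem fb_insert {n : ℕ} (Q : ℕ) (t : ℤ) (A : Finset (Finset (Fin n))) (R : Finset (Fin n) → ℕ)
    (S : Finset ℕ) (q : ℕ) (hq : q ∉ S) (x : XX n) :
    Fb Q t A R (insert q S) x = ∑ B ∈ (A.filter (fun r => 1 ≤ R r)).powerset,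
      (-1 : ℝ) ^ B.card * ((∏ r ∈ B, ind Q t r x q) *
        Fb Q t A (fun r => if r ∈ B then R r - 1 else R r) S x) := by
  sorry

/-- Main statement. -/
theorem fb_nice {n : ℕ} (Q : ℕ) (t : ℤ) (A : Finset (Finset (Fin n))) (Z : ℕ) (hZ : 1 ≤ Z)
    (y : ℝ) (hy : 1 ≤ y) (S : Finset ℕ) (hS : ∀ q ∈ S, q.Prime ∧ ¬ q ∣ Q ∧ q ≤ Z) :
    ∀ R : Finset (Fin n) → ℕ, ∃ E : ℝ,
      NiceX S ((1 + S.card : ℝ) ^ (∑ r ∈ A, R r)) ((Z : ℝ) ^ (∑ r ∈ A, R r)) E (Fb Q t A R S) ∧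
      |E - ∏ q ∈ S, sgm n Q t A q| ≤ (∑ r ∈ A, (y⁻¹) ^ (R r + 1)) *
        ∏ q ∈ S, (1 + y * ∑ B ∈ A.powerset.erase ∅, rho n Q t q B) := by
  sorry

end DG
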