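import Pool.Agent.Helper47.DG.Defs

/-!
# DG-B7a: the blocks of primes

All proofs are in `Pool/Agent/Helper13/Om/Sieve.lean` (theorem `sieve_upper`: facts `hSd`,
`hblkJ`, `hbS`, `hG`, the use of `block_sum`, `exponent_sum_nat`) and `Ntr_block_le`.
* `log2_le`: `q < 2 ^ (E + 1)` gives `Nat.log 2 q ≤ E`.
* `SS_bound`: `q ∈ SS N E j` has `2 ^ j * log2 q ≤ E < 2 ^ (j + 1) * log2 q`.
* `SS_sum`: `Helper13.Om.block_sum`.
* `mass_le`: if `SS N E j` is empty both sides are `1` resp. `≥ 1`; otherwise with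
  `K = E / 2 ^ j ≥ 1` all `q ∈ SS` are `< 2 ^ (K + 1)`, so `1 + #SS ≤ 2 ^ (K + 1)`, `ZZb ≤ 2 ^ (K + 1)`
  and `2 ^ (2 K + 2) ≤ 2 ^ (5 K)`; raise to the power `2 (b + j) * a`.
* `mass_prod`: product over `j < E + 1` and `Helper13.Om.exponent_sum_nat`.
* `VP_inv_le`: `(1 - 1/q)⁻¹ = q / (q - 1)`, product over all `2 ≤ q < 2 ^ (E + 1)` telescopes to
  `2 ^ (E + 1) - 1`.
* `VP_eq`: `Finset.prod_fiberwise_of_maps_to`.
-/

set_option autoImplicit false

namespace DG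

open Finset Filter Topology

/-- upper bound for the primes of the block -/
def ZZb (N E j : ℕ) : ℕ := if (SS N E j).Nonempty then 2 ^ (E / 2 ^ j + 1) else 1

theorem mem_PP {N E q : ℕ} : q ∈ PP N E ↔ (N < q ∧ q < 2 ^ (E + 1)) ∧ q.Prime := by
  unfold PP
  rw [mem_filter, mem_Ioo]

private theorem mem_SS {N E j q : ℕ} : q ∈ SS N E j ↔ q ∈ PP N E ∧ blk E q = j := by
  unfold SS
  rw [mem_filter]

private theorem blk_lt (E q : ℕ) : blk E q ∈ range (E + 1) := by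
  unfold blk
  rw [mem_range]
  have h1 : Nat.log 2 (E / Nat.log 2 q) ≤ E / Nat.log 2 q := Nat.log_le_self _ _
  have h2 : E / Nat.log 2 q ≤ E := Nat.div_le_self _ _
  omega

private theorem log2_le {N E q : ℕ} (h : q ∈ PP N E) : Nat.log 2 q ≤ E := by
  have h1 := mem_PP.1 h
  have h2 := Nat.log_lt_of_lt_pow h1.2.pos.ne' h1.1.2
  omega

theorem SS_disj (N E : ℕ) : ∀ i j, i ≠ j → Disjoint (SS N E i) (SS N E j) := by
  intro i j hij
  rw [Finset.disjoint_left]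
  intro q hq hq'
  exact hij ((mem_SS.1 hq).2.symm.trans (mem_SS.1 hq').2)

theorem SS_union (N E : ℕ) : (range (E + 1)).biUnion (SS N E) = PP N E := by
  ext q
  rw [mem_biUnion]
  constructor
  · rintro ⟨j, _, hj⟩
    exact (mem_SS.1 hj).1
  · intro h
    exact ⟨blk E q, blk_lt E q, mem_SS.2 ⟨h, rfl⟩⟩

theorem SS_bound {N E j q : ℕ} (h : q ∈ SS N E j) :
    2 ^ j * Nat.log 2 q ≤ E ∧ E < 2 ^ (j + 1) * Nat.log 2 q := by
  obtain ⟨hqP, hqj⟩ := mem_SS.1 h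
  have he := Helper13.Om.log2_pos_of_prime (mem_PP.1 hqP).2
  have heE := log2_le hqP
  have hdiv : E / Nat.log 2 q ≠ 0 := by
    have := Nat.div_pos heE (by omega)
    omega
  unfold blk at hqj
  constructor
  · have h1 := Nat.pow_log_le_self 2 hdiv
    rw [hqj, Nat.le_div_iff_mul_le (by omega)] at h1
    exact h1
  · have h1 := Nat.lt_pow_succ_log_self one_lt_two (E / Nat.log 2 q)
    rw [hqj, Nat.div_lt_iff_lt_mul (by omega)] at h1
    exact h1

theorem SS_sum (N E j : ℕ) : ∑ q ∈ SS N E j, 1 / (q : ℝ) ≤ 4 :=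
  Helper13.Om.block_sum (SS N E j) (fun _ hq => (mem_PP.1 (mem_SS.1 hq).1).2) E j
    (fun _ hq => SS_bound hq)

theorem ZZb_pos (N E j : ℕ) : 1 ≤ ZZb N E j := by
  unfold ZZb
  split_ifs
  · exact Nat.one_le_two_pow
  · exact le_rfl

private theorem lt_SS {N E j q : ℕ} (h : q ∈ SS N E j) : q < 2 ^ (E / 2 ^ j + 1) := by
  have h1 : Nat.log 2 q ≤ E / 2 ^ j := by
    rw [Nat.le_div_iff_mul_le (by positivity), mul_comm]
    exact (SS_bound h).1
  exact (Nat.lt_pow_succ_log_self one_lt_two q).trans_le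
    (Nat.pow_le_pow_right (by norm_num) (by omega))

theorem le_ZZb {N E j q : ℕ} (h : q ∈ SS N E j) : q ≤ ZZb N E j := by
  unfold ZZb
  rw [if_pos ⟨q, h⟩]
  exact (lt_SS h).le

private theorem mass_one (N E j : ℕ) :
    (1 + (SS N E j).card : ℝ) * ((ZZb N E j : ℕ) : ℝ) ≤ 2 ^ (5 * (E / 2 ^ j)) := by
  unfold ZZb
  by_cases hne : (SS N E j).Nonempty
  · rw [if_pos hne]
    obtain ⟨q₀, hq₀⟩ := hne
    have hK1 : 1 ≤ E / 2 ^ j := by
      have h1 := Helper13.Om.log2_pos_of_prime (mem_PP.1 (mem_SS.1 hq₀).1).2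
      have h2 : Nat.log 2 q₀ ≤ E / 2 ^ j := by
        rw [Nat.le_div_iff_mul_le (by positivity), mul_comm]
        exact (SS_bound hq₀).1
      omega
    have hc : (SS N E j).card ≤ 2 ^ (E / 2 ^ j + 1) := by
      have h1 : SS N E j ⊆ range (2 ^ (E / 2 ^ j + 1)) :=
        fun q hq => mem_range.2 (lt_SS hq)
      have h2 := card_le_card h1
      rwa [card_range] at h2
    have h3 : (1 + (SS N E j).card) * 2 ^ (E / 2 ^ j + 1) ≤ 2 ^ (5 * (E / 2 ^ j)) := by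
      have h4 : 1 ≤ 2 ^ (E / 2 ^ j + 1) := Nat.one_le_two_pow
      calc (1 + (SS N E j).card) * 2 ^ (E / 2 ^ j + 1)
          ≤ (2 ^ (E / 2 ^ j + 1) + 2 ^ (E / 2 ^ j + 1)) * 2 ^ (E / 2 ^ j + 1) :=
            Nat.mul_le_mul_right _ (by omega)
        _ = 2 ^ (2 * (E / 2 ^ j) + 3) := by ring
        _ ≤ 2 ^ (5 * (E / 2 ^ j)) := Nat.pow_le_pow_right (by norm_num) (by omega)
    exact_mod_cast h3
  · rw [if_neg hne, not_nonempty_iff_eq_empty.1 hne]
    simp only [card_empty, Nat.cast_zero, add_zero, Nat.cast_one, mul_one]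
    exact one_le_pow₀ (by norm_num)

theorem mass_prod (N E b a : ℕ) :
    (∏ j ∈ range (E + 1), (1 + (SS N E j).card : ℝ) ^ (a * (2 * (b + j)))) *
      ∏ j ∈ range (E + 1), ((ZZb N E j : ℕ) : ℝ) ^ (a * (2 * (b + j))) ≤
      2 ^ (a * (20 * E * (b + 1))) := by
  rw [← prod_mul_distrib]
  have h1 : ∀ j ∈ range (E + 1), (1 + (SS N E j).card : ℝ) ^ (a * (2 * (b + j))) *
      ((ZZb N E j : ℕ) : ℝ) ^ (a * (2 * (b + j))) ≤
        2 ^ (a * (10 * (E / 2 ^ j) * (b + j))) := by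
    intro j _
    rw [← mul_pow]
    calc ((1 + (SS N E j).card : ℝ) * ((ZZb N E j : ℕ) : ℝ)) ^ (a * (2 * (b + j)))
        ≤ (2 ^ (5 * (E / 2 ^ j))) ^ (a * (2 * (b + j))) :=
          pow_le_pow_left₀ (by positivity) (mass_one N E j) _
      _ = 2 ^ (a * (10 * (E / 2 ^ j) * (b + j))) := by
          rw [← pow_mul]
          congr 1
          ring
  refine (prod_le_prod (fun j _ => by positivity) h1).trans ?_
  rw [prod_pow_eq_pow_sum]
  refine pow_le_pow_right₀ (by norm_num) ?_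
  rw [← mul_sum]
  exact Nat.mul_le_mul_left a (Helper13.Om.exponent_sum_nat E b (E + 1))

private theorem fac_pos {q : ℕ} (h : 2 ≤ q) : 0 < 1 - 1 / (q : ℝ) := by
  have h1 : (2 : ℝ) ≤ q := by exact_mod_cast h
  have h2 : 1 / (q : ℝ) ≤ 1 / 2 := one_div_le_one_div_of_le (by norm_num) h1
  linarith

theorem VP_pos (N E : ℕ) : 0 < VP N E := by
  unfold VP
  exact prod_pos fun q hq => fac_pos (mem_PP.1 hq).2.two_le

private theorem prod_Ico (n : ℕ) :
    ∏ q ∈ Ico (2 : ℕ) (n + 2), (1 - 1 / (q : ℝ)) = 1 / ((n : ℝ) + 1) := by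
  induction n with
  | zero => simp
  | succ n ih =>
    rw [show n + 1 + 2 = (n + 2) + 1 from rfl, prod_Ico_succ_top (by omega), ih]
    push_cast
    field_simp
    ring

theorem VP_inv_le (N E : ℕ) : (VP N E)⁻¹ ≤ 2 ^ (E + 1) := by
  have hsub : PP N E ⊆ Ico 2 (2 ^ (E + 1)) := by
    intro q hq
    have h := mem_PP.1 hq
    exact mem_Ico.2 ⟨h.2.two_le, h.1.2⟩
  have h1 := prod_sdiff (f := fun q : ℕ => 1 - 1 / (q : ℝ)) hsub
  have h2 : ∏ q ∈ Ico 2 (2 ^ (E + 1)) \ PP N E, (1 - 1 / (q : ℝ)) ≤ 1 := by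
    refine prod_le_one (fun q hq => ?_) (fun q hq => ?_)
    · exact (fac_pos (mem_Ico.1 (mem_sdiff.1 hq).1).1).le
    · have : 0 ≤ 1 / (q : ℝ) := by positivity
      linarith
  have h3 : ∏ q ∈ Ico (2 : ℕ) (2 ^ (E + 1)), (1 - 1 / (q : ℝ)) ≤ VP N E := by
    rw [← h1]
    have h4 : ∏ q ∈ PP N E, (1 - 1 / (q : ℝ)) = VP N E := rfl
    rw [h4]
    exact mul_le_of_le_one_left (VP_pos N E).le h2
  obtain ⟨n, hn⟩ : ∃ n, 2 ^ (E + 1) = n + 2 := by
    have h5 : 2 ^ 1 ≤ 2 ^ (E + 1) := Nat.pow_le_pow_right (by norm_num) (by omega)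
    exact ⟨2 ^ (E + 1) - 2, by omega⟩
  rw [hn, prod_Ico] at h3
  have h6 : ((2 : ℝ) ^ (E + 1)) = (n : ℝ) + 2 := by exact_mod_cast hn
  rw [inv_le_comm₀ (VP_pos N E) (by positivity), h6]
  refine le_trans ?_ h3
  rw [inv_eq_one_div]
  exact one_div_le_one_div_of_le (by positivity) (by linarith)

theorem VP_eq (N E : ℕ) : ∏ j ∈ range (E + 1), ∏ q ∈ SS N E j, (1 - 1 / (q : ℝ)) = VP N E :=
  prod_fiberwise_of_maps_to (fun q _ => blk_lt E q) _

end DG
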