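import Pool.Agent.Helper6.DG.Defs
import Pool.Agent.Helper13.Om.BT

/-!
# Project DIAG (MP_e0aac0_nt), part B: the sieve majorant (definitions and interface)

Owner: helper47. The majorant is a product over blocks of primes of truncated
inclusion exclusion sums (Bonferroni at an even level).
-/

set_option autoImplicit false

namespace DG

open Finset Filter Topology

/-- the variables `(m, h_1, ..., h_n)` -/
abbrev XX (n : ℕ) : Type := ℤ × (Fin n → ℤ)

/-- the vertex `m + ∑_{i ∈ r} h_i` of the cube -/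
def vt {n : ℕ} (r : Finset (Fin n)) (x : XX n) : ℤ := x.1 + ∑ i ∈ r, x.2 i

/-- the points for which all vertices lie in `[0, M)` -/
noncomputable def Om (n M : ℕ) : Finset (XX n) :=
  ((Ioo (-(M : ℤ)) M) ×ˢ (Fintype.piFinset (fun _ : Fin n => Ioo (-(M : ℤ)) M))).filter
    (fun x => ∀ r : Finset (Fin n), 0 ≤ vt r x ∧ vt r x < M)

/-- the box `[0, d)^(n+1)` -/
noncomputable def bx (n d : ℕ) : Finset (XX n) :=
  (Ico (0 : ℤ) d) ×ˢ (Fintype.piFinset (fun _ : Fin n => Ico (0 : ℤ) d))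

/-- periodicity mod `d` in all variables -/
def Per {n : ℕ} (d : ℕ) (f : XX n → ℝ) : Prop :=
  ∀ x y : XX n, (d : ℤ) ∣ x.1 - y.1 → (∀ i, (d : ℤ) ∣ x.2 i - y.2 i) → f x = f y

/-- the mean over the box `[0, d)^(n+1)` -/
noncomputable def mb (n d : ℕ) (f : XX n → ℝ) : ℝ := (∑ v ∈ bx n d, f v) / (d : ℝ) ^ (n + 1)

/-- `f` is a combination, with coefficients of total mass at most `A`, of periodic functions
bounded by `1`, with moduli at most `B` composed of primes of `S`; its mean value is `E`. -/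
def NiceX {n : ℕ} (S : Finset ℕ) (A B E : ℝ) (f : XX n → ℝ) : Prop :=
  ∃ (ι : Type) (_ : Fintype ι) (c : ι → ℝ) (g : ι → XX n → ℝ) (d : ι → ℕ),
    (∀ i, 0 < d i ∧ (d i : ℝ) ≤ B ∧ (∀ p, p.Prime → p ∣ d i → p ∈ S) ∧ Per (d i) (g i) ∧
      ∀ x, |g i x| ≤ 1) ∧
    (∀ x, f x = ∑ i, c i * g i x) ∧ (∑ i, |c i| ≤ A) ∧ (∑ i, c i * mb n (d i) (g i) = E)

/-- the indicator that `q` divides `1 + Q (t + vt r x)` -/
noncomputable def ind {n : ℕ} (Q : ℕ) (t : ℤ) (r : Finset (Fin n)) (x : XX n) (q : ℕ) : ℝ :=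
  if (q : ℤ) ∣ 1 + Q * (t + vt r x) then 1 else 0

/-- local density: the mean of the indicator that `q` divides `1 + Q (t + vertex)` for all the
vertices of `B` -/
noncomputable def rho (n Q : ℕ) (t : ℤ) (q : ℕ) (B : Finset (Finset (Fin n))) : ℝ :=
  mb n q (fun x => ∏ r ∈ B, ind Q t r x q)

/-- the local factor of the full (not truncated) sum -/
noncomputable def sgm (n Q : ℕ) (t : ℤ) (A : Finset (Finset (Fin n))) (q : ℕ) : ℝ :=
  ∑ B ∈ A.powerset, (-1 : ℝ) ^ B.card * rho n Q t q B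

/-- product over the vertices in `A` of the sums truncated at the levels `R r`, over the primes
in `S` -/
noncomputable def Fb {n : ℕ} (Q : ℕ) (t : ℤ) (A : Finset (Finset (Fin n)))
    (R : Finset (Fin n) → ℕ) (S : Finset ℕ) (x : XX n) : ℝ :=
  ∏ r ∈ A, Helper13.Om.Atr (R r) S (ind Q t r x)

/-- the block of a prime -/
def blk (E q : ℕ) : ℕ := Nat.log 2 (E / Nat.log 2 q)

/-- the primes `q` with `N < q < 2^(E+1)` -/
def PP (N E : ℕ) : Finset ℕ := (Ioo N (2 ^ (E + 1))).filter Nat.Prime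

/-- the `j`-th block -/
def SS (N E j : ℕ) : Finset ℕ := (PP N E).filter (fun q => blk E q = j)

/-- the normalising product -/
noncomputable def VP (N E : ℕ) : ℝ := ∏ q ∈ PP N E, (1 - 1 / (q : ℝ))

/-- the majorant -/
noncomputable def nuB (Q N E b : ℕ) (m : ℤ) : ℝ :=
  (VP N E)⁻¹ * ∏ j ∈ range (E + 1), Helper13.Om.Atr (2 * (b + j)) (SS N E j)
    (fun q => if (q : ℤ) ∣ 1 + Q * m then 1 else 0)

/-- the sieve level as a function of `Y` -/
def EE (n b Y : ℕ) : ℕ := Nat.log 2 Y / (2 ^ n * 80 * (b + 1))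

/-- Interface of the sieve: the majorant `ν` of the primes `≡ 1 mod N!` and the cube averages of
`ν - 1`, for `k + 1` functions, i.e. `2 ^ (k + 1)` vertices. -/
def SVX (k : ℕ) : Prop := ∃ (C c : ℝ) (b0 : ℕ), 1 ≤ C ∧ 0 < c ∧ ∀ b : ℕ, b0 ≤ b → ∀ D : ℕ, 1 ≤ D →
  ∀ᶠ N : ℕ in atTop, ∀ᶠ Y : ℕ in atTop, ∃ ν : ℤ → ℝ, (∀ m, 0 ≤ ν m) ∧
    (∀ (m : ℤ) (p : ℕ), p.Prime → Y ≤ p → (p : ℤ) = 1 + N.factorial * m →
      ((N.factorial.totient : ℝ) / N.factorial) * Real.log Y / (C * b) ≤ ν m) ∧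
    1 / ((MM D N.factorial Y : ℕ) : ℝ) ^ (k + 2) *
      ∑ h ∈ Fintype.piFinset (fun _ : Fin (k + 1) =>
          Ioo (-((MM D N.factorial Y : ℕ) : ℤ)) ((MM D N.factorial Y : ℕ) : ℤ)),
        ∑ m ∈ range (MM D N.factorial Y), ∏ r : Finset (Fin (k + 1)),
          (if 0 ≤ (m : ℤ) + ∑ i ∈ r, h i ∧ (m : ℤ) + ∑ i ∈ r, h i < (MM D N.factorial Y : ℕ) then
            ν ((tt N.factorial Y : ℤ) + ((m : ℤ) + ∑ i ∈ r, h i)) - 1
            else 0) ≤ C * Real.exp (-(c * b))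

end DG
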