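import Pool.Agent.Helper47.DG.Nice

/-!
# DG-B4: local densities

Let `q` be a prime not dividing `Q`. Write `ψ_r(x) = 1 + Q (t + vt r x)`.
* `per_ind`: `ind Q t r · q` is periodic mod `q` (`q ∣ vt r x - vt r y` if `q` divides all
  coordinates of `x - y`; `Finset.dvd_sum`).
* `rho_empty`: the product is `1`; `mb_const`.
* `rho_single`: for fixed `x.2` exactly one residue `x.1 ∈ Ico 0 q` satisfies `q ∣ ψ_r(x)`
  (`Q` is invertible mod `q`), so the sum over `bx n q` is `q ^ n`.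
* `rho_pair`: `rho B ≤ rho {r, r'}` for `r ≠ r'` in `B` (`mb` is monotone: the product over `B` of
  indicators is at most the product over the pair). Choose `i` in the symmetric difference of `r`
  and `r'`. If `q` divides `ψ_r(x)` and `ψ_{r'}(x)`, then `q ∣ vt r x - vt r' x`
  (`q` is coprime to `Q`), which is `± x.2 i + (terms not containing x.2 i)`; hence `x.2 i` and then
  `x.1` are determined mod `q` by the other coordinates. So the number of such `x ∈ bx n q` is at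
  most `q ^ (n - 1)` (injection to the other coordinates, or
  `x ↦ (x.1, x.2) ↦ (x.2 with coordinate i replaced by 0)`), and `n ≥ 1` as `r ≠ r'`. Divide by
  `q ^ (n + 1)`.
* `sgm_eq`: `∏_{r ∈ A} (1 - ind_r) = ∑_{B ⊆ A} (-1)^|B| ∏_{r ∈ B} ind_r`
  (`Finset.prod_sub` / `Finset.prod_one_sub_eq`...) and linearity of `mb` (`mb_sum`).
* `sgm_nonneg`, `sgm_le_one`: from `sgm_eq` as `0 ≤ ∏ (1 - ind_r) ≤ 1`.
* `sum_rho`: `∑_{B ⊆ A, B ≠ ∅} rho B ≤ #A / q + 2 ^ #A / q ^ 2`: singletons and the others.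
* `sgm_close`: `|sgm - (1 - #A / q)| ≤ 2 ^ #A / q ^ 2`: the same splitting.
-/

set_option autoImplicit false

namespace DG

open Finset Filter Topology

theorem ind_nonneg {n : ℕ} (Q : ℕ) (t : ℤ) (r : Finset (Fin n)) (x : XX n) (q : ℕ) :
    0 ≤ ind Q t r x q := by
  unfold ind
  split_ifs <;> norm_num

theorem ind_le_one {n : ℕ} (Q : ℕ) (t : ℤ) (r : Finset (Fin n)) (x : XX n) (q : ℕ) :
    ind Q t r x q ≤ 1 := by
  unfold ind
  split_ifs <;> norm_num

theorem per_ind {n : ℕ} (Q : ℕ) (t : ℤ) (r : Finset (Fin n)) (q : ℕ) :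
    Per q (fun x : XX n => ind Q t r x q) := by
  intro x y h1 h2
  have h3 : (q : ℤ) ∣ vt r x - vt r y := by
    have h4 : vt r x - vt r y = (x.1 - y.1) + ∑ i ∈ r, (x.2 i - y.2 i) := by
      unfold vt
      rw [Finset.sum_sub_distrib]
      ring
    rw [h4]
    exact dvd_add h1 (Finset.dvd_sum fun i _ => h2 i)
  have h5 : (q : ℤ) ∣ (1 + Q * (t + vt r x)) - (1 + Q * (t + vt r y)) := by
    have h6 : (1 + (Q : ℤ) * (t + vt r x)) - (1 + Q * (t + vt r y)) = Q * (vt r x - vt r y) := by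
      ring
    rw [h6]
    exact h3.mul_left _
  unfold ind
  simp only [(Int.dvd_iff_dvd_of_dvd_sub h5)]

theorem per_prod_ind {n : ℕ} (Q : ℕ) (t : ℤ) (B : Finset (Finset (Fin n))) (q : ℕ) :
    Per q (fun x : XX n => ∏ r ∈ B, ind Q t r x q) := fun x y h1 h2 =>
  Finset.prod_congr rfl fun r _ => per_ind Q t r q x y h1 h2

theorem rho_empty (n Q : ℕ) (t : ℤ) {q : ℕ} (hq : 0 < q) : rho n Q t q ∅ = 1 := by
  unfold rho
  simp only [Finset.prod_empty]
  exact mb_const hq 1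

theorem rho_nonneg (n Q : ℕ) (t : ℤ) (q : ℕ) (B : Finset (Finset (Fin n))) :
    0 ≤ rho n Q t q B :=
  mb_nonneg fun _ => Finset.prod_nonneg fun _ _ => ind_nonneg _ _ _ _ _

private theorem dvd_of_mul {Q q : ℕ} (hq : q.Prime) (hQ : ¬ q ∣ Q) {z : ℤ}
    (h : (q : ℤ) ∣ Q * z) : (q : ℤ) ∣ z := by
  rcases (Nat.prime_iff_prime_int.1 hq).dvd_or_dvd h with h1 | h1
  · exact absurd (Int.natCast_dvd_natCast.1 h1) hQ
  · exact h1

private theorem eq_of_dvd_Ico {q : ℕ} {x y : ℤ} (hx : x ∈ Ico (0 : ℤ) q) (hy : y ∈ Ico (0 : ℤ) q)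
    (h : (q : ℤ) ∣ x - y) : x = y := by
  rw [Finset.mem_Ico] at hx hy
  have h1 : |x - y| < q := by
    rw [abs_lt]
    constructor <;> linarith [hx.1, hx.2, hy.1, hy.2]
  have h2 := Int.eq_zero_of_abs_lt_dvd h h1
  linarith

private theorem uniq {Q q : ℕ} (hq : q.Prime) (hQ : ¬ q ∣ Q) (u : ℤ) :
    ∑ x ∈ Ico (0 : ℤ) q, (if (q : ℤ) ∣ 1 + Q * (u + x) then (1 : ℝ) else 0) = 1 := by
  have hq0 : (0 : ℤ) < q := by exact_mod_cast hq.pos
  have hco : IsCoprime (Q : ℤ) (q : ℤ) :=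
    ((Nat.Prime.coprime_iff_not_dvd hq).2 hQ).symm.isCoprime
  obtain ⟨a, b, hab⟩ := hco
  set x0 : ℤ := (-a - u) % q with hx0
  have hx0m : x0 ∈ Ico (0 : ℤ) q := by
    rw [Finset.mem_Ico]
    exact ⟨Int.emod_nonneg _ hq0.ne', Int.emod_lt_of_pos _ hq0⟩
  have hdiv : (q : ℤ) ∣ 1 + Q * (u + x0) := by
    have h1 : (-a - u) = q * ((-a - u) / q) + x0 := (Int.mul_ediv_add_emod _ _).symm
    refine ⟨b - Q * ((-a - u) / q), ?_⟩
    have h2 : x0 = -a - u - q * ((-a - u) / q) := by linarith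
    rw [h2]
    linear_combination (-1 : ℤ) * hab
  rw [Finset.sum_eq_single x0]
  · rw [if_pos hdiv]
  · intro x hx hne
    rw [if_neg]
    intro h1
    apply hne
    refine eq_of_dvd_Ico hx hx0m (dvd_of_mul hq hQ ?_)
    have h2 : (Q : ℤ) * (x - x0) = (1 + Q * (u + x)) - (1 + Q * (u + x0)) := by ring
    rw [h2]
    exact dvd_sub h1 hdiv
  · intro h
    exact absurd hx0m h

private theorem card_pi (n q : ℕ) :
    (Fintype.piFinset (fun _ : Fin n => Ico (0 : ℤ) q)).card = q ^ n := by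
  rw [Fintype.card_piFinset]
  simp

theorem rho_single (n Q : ℕ) (t : ℤ) {q : ℕ} (hq : q.Prime) (hQ : ¬ q ∣ Q) (r : Finset (Fin n)) :
    rho n Q t q {r} = 1 / q := by
  have hq0 : (0 : ℝ) < q := by exact_mod_cast hq.pos
  unfold rho mb
  simp only [Finset.prod_singleton]
  have h1 : ∑ v ∈ bx n q, ind Q t r v q = (q : ℝ) ^ n := by
    unfold bx
    rw [Finset.sum_product_right]
    have h2 : ∀ y ∈ Fintype.piFinset (fun _ : Fin n => Ico (0 : ℤ) q),
        ∑ x ∈ Ico (0 : ℤ) q, ind Q t r (x, y) q = 1 := by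
      intro y _
      rw [← uniq hq hQ (t + ∑ i ∈ r, y i)]
      refine Finset.sum_congr rfl fun x _ => ?_
      unfold ind vt
      have h3 : 1 + (Q : ℤ) * (t + ((x, y) : XX n).1 + ∑ i ∈ r, ((x, y) : XX n).2 i) =
          1 + Q * (t + ∑ i ∈ r, y i + x) := by ring
      rw [← h3, add_assoc t]
    rw [Finset.sum_congr rfl h2, Finset.sum_const, card_pi, nsmul_eq_mul, mul_one]
    push_cast
    rfl
  rw [h1, pow_succ]
  field_simp

private theorem pair_card (n Q : ℕ) (t : ℤ) {q : ℕ} (hq : q.Prime) (hQ : ¬ q ∣ Q)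
    {r r' : Finset (Fin n)} {i : Fin n} (hi : i ∈ r) (hi' : i ∉ r') :
    ((bx n q).filter (fun v => (q : ℤ) ∣ 1 + Q * (t + vt r v) ∧
      (q : ℤ) ∣ 1 + Q * (t + vt r' v))).card ≤ q ^ (n - 1) := by
  classical
  have hc : (Fintype.piFinset (fun j : Fin n => if j = i then ({0} : Finset ℤ) else
      Ico (0 : ℤ) q)).card = q ^ (n - 1) := by
    rw [Fintype.card_piFinset, ← Finset.mul_prod_erase univ _ (Finset.mem_univ i), if_pos rfl,
      Finset.card_singleton, one_mul]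
    have h1 : ∀ j ∈ (univ : Finset (Fin n)).erase i,
        (if j = i then ({0} : Finset ℤ) else Ico (0 : ℤ) q).card = q := by
      intro j hj
      rw [if_neg (Finset.ne_of_mem_erase hj)]
      simp
    rw [Finset.prod_congr rfl h1, Finset.prod_const, Finset.card_erase_of_mem (Finset.mem_univ i),
      Finset.card_univ, Fintype.card_fin]
  rw [← hc]
  refine Finset.card_le_card_of_injOn (fun v => Function.update v.2 i 0) ?_ ?_
  · intro v hv
    rw [Finset.mem_coe, Finset.mem_filter] at hv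
    have hv2 := (Finset.mem_product.1 hv.1).2
    rw [Fintype.mem_piFinset] at hv2
    rw [Finset.mem_coe, Fintype.mem_piFinset]
    intro j
    by_cases hj : j = i
    · subst hj
      simp
    · rw [if_neg hj]
      change Function.update v.2 i 0 j ∈ Ico 0 (q : ℤ)
      rw [Function.update_of_ne hj]
      exact hv2 j
  · intro v hv w hw h
    rw [Finset.mem_coe, Finset.mem_filter] at hv hw
    have hv1 := (Finset.mem_product.1 hv.1).1
    have hw1 := (Finset.mem_product.1 hw.1).1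
    have hv2 := (Finset.mem_product.1 hv.1).2
    have hw2 := (Finset.mem_product.1 hw.1).2
    rw [Fintype.mem_piFinset] at hv2 hw2
    have hne : ∀ j, j ≠ i → v.2 j = w.2 j := by
      intro j hj
      have h1 := congrFun h j
      simp only [Function.update_of_ne hj] at h1
      exact h1
    have hd : ∀ s : Finset (Fin n), (q : ℤ) ∣ 1 + Q * (t + vt s v) →
        (q : ℤ) ∣ 1 + Q * (t + vt s w) → (q : ℤ) ∣ vt s v - vt s w := by
      intro s h1 h2
      refine dvd_of_mul hq hQ ?_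
      have h3 : (Q : ℤ) * (vt s v - vt s w) = (1 + Q * (t + vt s v)) - (1 + Q * (t + vt s w)) := by
        ring
      rw [h3]
      exact dvd_sub h1 h2
    have hr := hd r hv.2.1 hw.2.1
    have hr' := hd r' hv.2.2 hw.2.2
    have e1 : vt r' v - vt r' w = v.1 - w.1 := by
      unfold vt
      have h1 : ∑ j ∈ r', v.2 j = ∑ j ∈ r', w.2 j :=
        Finset.sum_congr rfl fun j hj => hne j (fun h => hi' (h ▸ hj))
      rw [h1]
      ring
    have e2 : vt r v - vt r w = (v.1 - w.1) + (v.2 i - w.2 i) := by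
      unfold vt
      rw [← Finset.add_sum_erase r _ hi, ← Finset.add_sum_erase r _ hi]
      have h1 : ∑ j ∈ r.erase i, v.2 j = ∑ j ∈ r.erase i, w.2 j :=
        Finset.sum_congr rfl fun j hj => hne j (Finset.ne_of_mem_erase hj)
      rw [h1]
      ring
    rw [e1] at hr'
    rw [e2] at hr
    have h5 : (q : ℤ) ∣ v.2 i - w.2 i := (dvd_add_right hr').1 hr
    have h6 : v.1 = w.1 := eq_of_dvd_Ico hv1 hw1 hr'
    have h7 : v.2 i = w.2 i := eq_of_dvd_Ico (hv2 i) (hw2 i) h5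
    refine Prod.ext h6 (funext fun j => ?_)
    by_cases hj : j = i
    · rw [hj]
      exact h7
    · exact hne j hj

theorem rho_pair (n Q : ℕ) (t : ℤ) {q : ℕ} (hq : q.Prime) (hQ : ¬ q ∣ Q)
    (B : Finset (Finset (Fin n))) (hB : 2 ≤ B.card) : rho n Q t q B ≤ 1 / (q : ℝ) ^ 2 := by
  classical
  have hq0 : (0 : ℝ) < q := by exact_mod_cast hq.pos
  obtain ⟨r, hr, r', hr', hne⟩ := Finset.one_lt_card.1 (show 1 < B.card by omega)
  obtain ⟨s, hs, s', hs', i, hi, hi'⟩ : ∃ s ∈ B, ∃ s' ∈ B, ∃ i, i ∈ s ∧ i ∉ s' := by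
    by_contra hcon
    push Not at hcon
    apply hne
    refine Finset.Subset.antisymm (fun i hi => hcon r hr r' hr' i hi)
      (fun i hi => hcon r' hr' r hr i hi)
  have hss : s ≠ s' := fun h => hi' (h ▸ hi)
  have hpt : ∀ x : XX n, ∏ u ∈ B, ind Q t u x q ≤
      if (q : ℤ) ∣ 1 + Q * (t + vt s x) ∧ (q : ℤ) ∣ 1 + Q * (t + vt s' x) then (1 : ℝ) else 0 := by
    intro x
    split_ifs with h
    · exact Finset.prod_le_one (fun u _ => ind_nonneg _ _ _ _ _) fun u _ => ind_le_one _ _ _ _ _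
    · have h0 : ∃ u ∈ B, ind Q t u x q = 0 := by
        by_cases h1 : (q : ℤ) ∣ 1 + Q * (t + vt s x)
        · refine ⟨s', hs', ?_⟩
          unfold ind
          rw [if_neg fun h2 => h ⟨h1, h2⟩]
        · refine ⟨s, hs, ?_⟩
          unfold ind
          rw [if_neg h1]
      obtain ⟨u, hu, hu0⟩ := h0
      rw [Finset.prod_eq_zero hu hu0]
  obtain ⟨n', rfl⟩ : ∃ n', n = n' + 1 := by
    have := i.pos
    exact ⟨n - 1, by omega⟩
  unfold rho mb
  have hcard := pair_card (n' + 1) Q t hq hQ hi hi'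
  have h1 : ∑ v ∈ bx (n' + 1) q, ∏ u ∈ B, ind Q t u v q ≤ (q : ℝ) ^ n' := by
    calc ∑ v ∈ bx (n' + 1) q, ∏ u ∈ B, ind Q t u v q
        ≤ ∑ v ∈ bx (n' + 1) q, (if (q : ℤ) ∣ 1 + Q * (t + vt s v) ∧
            (q : ℤ) ∣ 1 + Q * (t + vt s' v) then (1 : ℝ) else 0) :=
          Finset.sum_le_sum fun v _ => hpt v
      _ = (((bx (n' + 1) q).filter (fun v => (q : ℤ) ∣ 1 + Q * (t + vt s v) ∧
            (q : ℤ) ∣ 1 + Q * (t + vt s' v))).card : ℝ) := by
          rw [Finset.card_filter]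
          push_cast
          rfl
      _ ≤ (q : ℝ) ^ n' := by
          rw [Nat.add_sub_cancel] at hcard
          exact_mod_cast hcard
  rw [div_le_div_iff₀ (by positivity) (by positivity), one_mul]
  calc (∑ v ∈ bx (n' + 1) q, ∏ u ∈ B, ind Q t u v q) * (q : ℝ) ^ 2 ≤ (q : ℝ) ^ n' * (q : ℝ) ^ 2 :=
        mul_le_mul_of_nonneg_right h1 (by positivity)
    _ = (q : ℝ) ^ (n' + 1 + 1) := by ring

theorem sgm_eq (n Q : ℕ) (t : ℤ) (A : Finset (Finset (Fin n))) (q : ℕ) :
    sgm n Q t A q = mb n q (fun x => ∏ r ∈ A, (1 - ind Q t r x q)) := by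
  classical
  have h1 : (fun x : XX n => ∏ r ∈ A, (1 - ind Q t r x q)) =
      fun x => ∑ B ∈ A.powerset, (-1 : ℝ) ^ B.card * ∏ r ∈ B, ind Q t r x q := by
    funext x
    have h2 : ∀ r ∈ A, 1 - ind Q t r x q = (-ind Q t r x q) + 1 := fun r _ => by ring
    rw [Finset.prod_congr rfl h2, Finset.prod_add]
    refine Finset.sum_congr rfl fun B _ => ?_
    rw [Finset.prod_const_one, mul_one, Finset.prod_neg]
  rw [h1, mb_sum]
  rfl

theorem sgm_nonneg (n Q : ℕ) (t : ℤ) (A : Finset (Finset (Fin n))) (q : ℕ) :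
    0 ≤ sgm n Q t A q := by
  rw [sgm_eq]
  exact mb_nonneg fun x => Finset.prod_nonneg fun r _ => sub_nonneg.2 (ind_le_one _ _ _ _ _)

theorem sgm_le_one (n Q : ℕ) (t : ℤ) (A : Finset (Finset (Fin n))) {q : ℕ} (hq : 0 < q) :
    sgm n Q t A q ≤ 1 := by
  rw [sgm_eq]
  refine mb_le_one hq fun x => Finset.prod_le_one (fun r _ => sub_nonneg.2 (ind_le_one _ _ _ _ _))
    fun r _ => ?_
  have := ind_nonneg Q t r x q
  linarith

private theorem sum_ite_card {n : ℕ} (A : Finset (Finset (Fin n))) (j : ℕ) (c : ℝ) :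
    ∑ B ∈ A.powerset, (if B.card = j then c else 0) = (A.card.choose j : ℝ) * c := by
  rw [← Finset.sum_filter, Finset.sum_const, ← Finset.powersetCard_eq_filter,
    Finset.card_powersetCard, nsmul_eq_mul]

theorem sum_rho (n Q : ℕ) (t : ℤ) {q : ℕ} (hq : q.Prime) (hQ : ¬ q ∣ Q)
    (A : Finset (Finset (Fin n))) :
    ∑ B ∈ A.powerset.erase ∅, rho n Q t q B ≤ (A.card : ℝ) / q + 2 ^ A.card / (q : ℝ) ^ 2 := by
  classical
  have hq0 : (0 : ℝ) < q := by exact_mod_cast hq.pos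
  have h1 : ∀ B ∈ A.powerset.erase ∅, rho n Q t q B ≤
      (if B.card = 1 then (1 : ℝ) / q else 0) + 1 / (q : ℝ) ^ 2 := by
    intro B hB
    have hne : B ≠ ∅ := (Finset.mem_erase.1 hB).1
    have hpos : 0 < B.card := Finset.card_pos.2 (Finset.nonempty_iff_ne_empty.2 hne)
    have h2 : (0 : ℝ) ≤ 1 / (q : ℝ) ^ 2 := by positivity
    by_cases h3 : B.card = 1
    · obtain ⟨r, rfl⟩ := Finset.card_eq_one.1 h3
      rw [if_pos h3, rho_single n Q t hq hQ]
      linarith
    · rw [if_neg h3, zero_add]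
      exact rho_pair n Q t hq hQ B (by omega)
  calc ∑ B ∈ A.powerset.erase ∅, rho n Q t q B
      ≤ ∑ B ∈ A.powerset.erase ∅, ((if B.card = 1 then (1 : ℝ) / q else 0) + 1 / (q : ℝ) ^ 2) :=
        Finset.sum_le_sum h1
    _ ≤ ∑ B ∈ A.powerset, ((if B.card = 1 then (1 : ℝ) / q else 0) + 1 / (q : ℝ) ^ 2) := by
        refine Finset.sum_le_sum_of_subset_of_nonneg (Finset.erase_subset _ _) fun B _ _ => ?_
        split_ifs <;> positivity
    _ = (A.card : ℝ) / q + 2 ^ A.card / (q : ℝ) ^ 2 := by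
        rw [Finset.sum_add_distrib, sum_ite_card, Finset.sum_const, Finset.card_powerset,
          nsmul_eq_mul, Nat.choose_one_right]
        push_cast
        ring

theorem sgm_close (n Q : ℕ) (t : ℤ) {q : ℕ} (hq : q.Prime) (hQ : ¬ q ∣ Q)
    (A : Finset (Finset (Fin n))) :
    |sgm n Q t A q - (1 - (A.card : ℝ) / q)| ≤ 2 ^ A.card / (q : ℝ) ^ 2 := by
  classical
  have hq0 : (0 : ℝ) < q := by exact_mod_cast hq.pos
  have h1 : (1 : ℝ) - (A.card : ℝ) / q = ∑ B ∈ A.powerset,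
      ((if B.card = 0 then (1 : ℝ) else 0) + (if B.card = 1 then -(1 / (q : ℝ)) else 0)) := by
    rw [Finset.sum_add_distrib, sum_ite_card, sum_ite_card, Nat.choose_zero_right,
      Nat.choose_one_right]
    push_cast
    ring
  unfold sgm
  rw [h1, ← Finset.sum_sub_distrib]
  refine (Finset.abs_sum_le_sum_abs _ _).trans ?_
  have h2 : ∀ B ∈ A.powerset, |(-1 : ℝ) ^ B.card * rho n Q t q B -
      ((if B.card = 0 then (1 : ℝ) else 0) + (if B.card = 1 then -(1 / (q : ℝ)) else 0))| ≤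
        1 / (q : ℝ) ^ 2 := by
    intro B _
    have h3 : (0 : ℝ) ≤ 1 / (q : ℝ) ^ 2 := by positivity
    by_cases h4 : B.card = 0
    · have h5 : B = ∅ := Finset.card_eq_zero.1 h4
      subst h5
      rw [rho_empty n Q t hq.pos]
      simp
    · by_cases h5 : B.card = 1
      · rw [if_neg h4, if_pos h5, h5]
        obtain ⟨r, rfl⟩ := Finset.card_eq_one.1 h5
        rw [rho_single n Q t hq hQ]
        have h6 : (-1 : ℝ) ^ 1 * (1 / (q : ℝ)) - (0 + -(1 / (q : ℝ))) = 0 := by ring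
        rw [h6, abs_zero]
        exact h3
      · rw [if_neg h4, if_neg h5, add_zero, sub_zero, abs_mul, abs_pow, abs_neg, abs_one, one_pow,
          one_mul, abs_of_nonneg (rho_nonneg _ _ _ _ _)]
        exact rho_pair n Q t hq hQ B (by omega)
  calc _ ≤ ∑ _B ∈ A.powerset, 1 / (q : ℝ) ^ 2 := Finset.sum_le_sum h2
    _ = 2 ^ A.card / (q : ℝ) ^ 2 := by
        rw [Finset.sum_const, Finset.card_powerset, nsmul_eq_mul]
        push_cast
        ring

end DG
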