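import Pool.Agent.Helper6.DG.Defs
import Pool.Agent.Helper13.MRF.CoreW
import Pool.Agent.Helper11.QR.PartC
import Pool.Agent.Helper11.QR.PartU

/-!
# Project DIAG (MP_e0aac0_nt), part F: from product sets to all bounded functions

`goal_of_prod : ProdSt k → Goal k`. Weak regularity (`regBox`) with respect to the logarithmic law,
`cutLog`, the window inequality for cut small functions (`coreW`), and the invariance of the law of
`Ω` under the shift by `1`.
-/

set_option autoImplicit false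

namespace DG

open Finset Helper13.Om Helper11.QR

/-- the function shifted in all coordinates -/
private def sh {k : ℕ} (F : (Fin k → ℕ) → ℝ) : (Fin k → ℕ) → ℝ := fun l => F (fun i => l i + 1)

private lemma ec_eq (k M : ℕ) (F : (Fin k → ℕ) → ℝ) : Ec k M F = Em k M F := rfl

private lemma ep_succ (k M : ℕ) (F : (Fin (k + 1) → ℕ) → ℝ) :
    Ep (k + 1) M F = 1 / (M : ℝ) * ∑ n ∈ Finset.Icc 1 M,
      Ep k M (fun ℓ => F (Fin.cons (ArithmeticFunction.cardFactors n) ℓ)) := by
  classical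
  unfold Ep
  have h1 : ∑ m ∈ Fintype.piFinset (fun _ : Fin (k + 1) => Finset.Icc 1 M),
        F (fun i => ArithmeticFunction.cardFactors (m i)) =
      ∑ z ∈ (Finset.Icc 1 M) ×ˢ Fintype.piFinset (fun _ : Fin k => Finset.Icc 1 M),
        F (Fin.cons (ArithmeticFunction.cardFactors z.1)
          (fun i => ArithmeticFunction.cardFactors (z.2 i))) := by
    refine Finset.sum_nbij' (fun ℓ => (ℓ 0, Fin.tail ℓ)) (fun z => Fin.cons z.1 z.2)
      ?_ ?_ ?_ ?_ ?_
    · intro ℓ hℓ
      rw [Fintype.mem_piFinset] at hℓ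
      rw [Finset.mem_product, Fintype.mem_piFinset]
      exact ⟨hℓ 0, fun i => hℓ i.succ⟩
    · intro z hz
      rw [Finset.mem_product, Fintype.mem_piFinset] at hz
      rw [Fintype.mem_piFinset]
      intro i
      refine Fin.cases ?_ (fun j => ?_) i
      · simpa using hz.1
      · simpa using hz.2 j
    · intro ℓ _
      simp
    · intro z _
      simp
    · intro ℓ _
      congr 1
      funext i
      refine Fin.cases ?_ (fun j => ?_) i
      · simp
      · simp [Fin.tail]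
  rw [h1, Finset.sum_product]
  simp only [Finset.mul_sum]
  refine Finset.sum_congr rfl fun n _ => Finset.sum_congr rfl fun m _ => ?_
  have e : 1 / ((M : ℝ) ^ (k + 1)) = 1 / (M : ℝ) * (1 / (M : ℝ) ^ k) := by
    rw [one_div_mul_one_div_rev, pow_succ]
  rw [e, mul_assoc]

private lemma ep_sub (k M : ℕ) (F G : (Fin k → ℕ) → ℝ) :
    Ep k M F - Ep k M G = Ep k M (fun ℓ => F ℓ - G ℓ) := (Ep_sub' k M F G).symm

private lemma ep_shift (M : ℕ) (hM : 1 ≤ M) (τ : ℝ)
    (h : ∀ b : ℕ → ℝ, (∀ m, |b m| ≤ 1) →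
      |1 / (M : ℝ) * ∑ n ∈ Finset.Icc 1 M, b (ArithmeticFunction.cardFactors n + 1) -
        1 / (M : ℝ) * ∑ n ∈ Finset.Icc 1 M, b (ArithmeticFunction.cardFactors n)| ≤ τ) (k : ℕ) :
    ∀ Ψ : (Fin k → ℕ) → ℝ, (∀ ℓ, |Ψ ℓ| ≤ 1) → |Ep k M (sh Ψ) - Ep k M Ψ| ≤ k * τ := by
  have hM0 : (0 : ℝ) < M := by exact_mod_cast hM
  induction k with
  | zero =>
    intro Ψ _
    have : sh Ψ = Ψ := by
      funext l
      unfold sh
      congr 1
      exact Subsingleton.elim _ _
    rw [this]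
    simp
  | succ k ih =>
    intro Ψ hΨ
    rw [ep_succ, ep_succ]
    set b : ℕ → ℝ := fun t => Ep k M (fun ℓ => Ψ (Fin.cons t ℓ)) with hb
    have hb1 : ∀ t, |b t| ≤ 1 := fun t => Ep_abs_le_of k M _ hM (fun ℓ => hΨ _)
    have e1 : ∀ n : ℕ, (fun ℓ : Fin k → ℕ => sh Ψ (Fin.cons
        (ArithmeticFunction.cardFactors n) ℓ)) =
        sh (fun ℓ => Ψ (Fin.cons (ArithmeticFunction.cardFactors n + 1) ℓ)) := by
      intro n
      funext ℓ
      unfold sh
      congr 1
      funext i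
      refine Fin.cases ?_ (fun j => ?_) i
      · simp
      · simp
    have h1 : |1 / (M : ℝ) * ∑ n ∈ Finset.Icc 1 M, Ep k M (fun ℓ => sh Ψ (Fin.cons
        (ArithmeticFunction.cardFactors n) ℓ)) -
        1 / (M : ℝ) * ∑ n ∈ Finset.Icc 1 M, b (ArithmeticFunction.cardFactors n + 1)| ≤
        k * τ := by
      rw [← mul_sub, ← Finset.sum_sub_distrib, abs_mul, abs_of_pos (by positivity),
        one_div_mul_eq_div, div_le_iff₀ hM0]
      refine (Finset.abs_sum_le_sum_abs _ _).trans ?_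
      refine (Finset.sum_le_card_nsmul _ _ (k * τ) (fun n _ => ?_)).trans (le_of_eq ?_)
      · rw [e1 n]
        exact ih _ (fun ℓ => hΨ _)
      · rw [Nat.card_Icc, Nat.add_sub_cancel, nsmul_eq_mul]
        ring
    have h2 := h b hb1
    have h3 := abs_sub_le (1 / (M : ℝ) * ∑ n ∈ Finset.Icc 1 M, Ep k M (fun ℓ => sh Ψ (Fin.cons
        (ArithmeticFunction.cardFactors n) ℓ)))
        (1 / (M : ℝ) * ∑ n ∈ Finset.Icc 1 M, b (ArithmeticFunction.cardFactors n + 1))
        (1 / (M : ℝ) * ∑ n ∈ Finset.Icc 1 M, b (ArithmeticFunction.cardFactors n))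
    push_cast
    linarith

private lemma gw_small (N : ℕ) (hN : 1 ≤ N) (η : ℝ) (hη : 0 < η) :
    ∑ M ∈ (Finset.Icc 1 N).filter (fun M : ℕ => ¬ η * Real.log N ≤ Real.log M), (1 / (M : ℝ)) ≤
      1 + η * Real.log N := by
  have hlog : 0 ≤ Real.log N := Real.log_nonneg (by exact_mod_cast hN)
  set y : ℝ := Real.exp (η * Real.log N) with hy
  have hy1 : 1 ≤ y := Real.one_le_exp (mul_nonneg hη.le hlog)
  have h1 := harmonic_floor_le_one_add_log y hy1
  rw [harmonic_eq_sum_Icc, Rat.cast_sum] at h1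
  simp only [Rat.cast_inv, Rat.cast_natCast] at h1
  rw [hy, Real.log_exp] at h1
  simp only [one_div]
  refine le_trans ?_ h1
  apply Finset.sum_le_sum_of_subset_of_nonneg
  · intro M hM
    rw [Finset.mem_filter, Finset.mem_Icc, not_le] at hM
    rw [Finset.mem_Icc]
    refine ⟨hM.1.1, Nat.le_floor ?_⟩
    have hM0 : (0 : ℝ) < M := by exact_mod_cast hM.1.1
    have := (Real.log_lt_iff_lt_exp hM0).1 hM.2
    exact this.le
  · intro M _ _
    positivity

private lemma law_shift (τ : ℝ) (hτ : 0 < τ) : ∃ x0 : ℕ, ∀ M : ℕ, x0 ≤ M →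
    ∀ b : ℕ → ℝ, (∀ m, |b m| ≤ 1) →
      |1 / (M : ℝ) * ∑ n ∈ Finset.Icc 1 M, b (ArithmeticFunction.cardFactors n + 1) -
        1 / (M : ℝ) * ∑ n ∈ Finset.Icc 1 M, b (ArithmeticFunction.cardFactors n)| ≤ τ := by
  obtain ⟨X2, h2⟩ := shiftInv_eventually τ hτ
  refine ⟨X2, fun x hx b hb => ?_⟩
  have hc := h2 x hx b hb
  rw [Bv_nat, Bv_nat] at hc
  rw [abs_sub_comm]
  exact hc

theorem goal_of_prod (k : ℕ) (hP : ProdSt k) : Goal k := by
  classical
  rcases Nat.eq_zero_or_pos k with hk0 | hk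
  · subst hk0
    intro ε hε
    refine ⟨1, 0, fun N K _ hK _ F _ => ?_⟩
    have h1 : (fun l : Fin 0 → ℕ => F (fun i => l i + 1)) = F := by
      funext l
      congr 1
      exact Subsingleton.elim _ _
    rw [h1]
    simp only [sub_self, abs_zero, mul_zero, Finset.sum_const_zero]
    have : 0 ≤ Real.log K := Real.log_nonneg (by exact_mod_cast hK)
    positivity
  intro ε hε
  obtain ⟨δ₁, hδ₁, Ka, Na, hcore⟩ := coreW k hk (ε / 16) (by positivity)
  set τ : ℝ := δ₁ / 4 with hτ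
  have hτ0 : 0 < τ := by positivity
  obtain ⟨C, hC⟩ := regBox k δ₁ hδ₁
  set η : ℝ := min (ε / 64) (1 / 2) with hη
  have hη0 : 0 < η := lt_min (by positivity) (by norm_num)
  have hη1 : η ≤ ε / 64 := min_le_left _ _
  have hη2 : η ≤ 1 / 2 := min_le_right _ _
  obtain ⟨Nb, hcut⟩ := cutLog k η τ hη0 hτ0
  obtain ⟨Kc, Nc, hbox⟩ := hP (ε / (4 * (C + 1))) (by positivity)
  obtain ⟨x0, hx0⟩ := law_shift (δ₁ / (4 * (k + 1))) (by positivity)
  obtain ⟨Kd, hKd⟩ : ∃ Kd : ℕ, Real.exp (64 / ε + 2) ≤ Kd := exists_nat_ge _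
  obtain ⟨Nd, hNd⟩ : ∃ Nd : ℕ, Real.exp (Real.log (x0 + 1) / η) ≤ Nd := exists_nat_ge _
  refine ⟨max (max Ka Kc) (max Kd 1), max (max Na Nb) (max Nc (max Nd 1)), ?_⟩
  intro N K hN hK hKN F hF
  have hNa : Na ≤ N := (le_max_left _ _).trans ((le_max_left _ _).trans hN)
  have hNb : Nb ≤ N := (le_max_right _ _).trans ((le_max_left _ _).trans hN)
  have hNc : Nc ≤ N := (le_max_left _ _).trans ((le_max_right _ _).trans hN)
  have hNd' : Nd ≤ N := (le_max_left _ _).trans ((le_max_right _ _).trans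
    ((le_max_right _ _).trans hN))
  have hN1 : 1 ≤ N := (le_max_right _ _).trans ((le_max_right _ _).trans
    ((le_max_right _ _).trans hN))
  have hKa : Ka ≤ K := (le_max_left _ _).trans ((le_max_left _ _).trans hK)
  have hKc : Kc ≤ K := (le_max_right _ _).trans ((le_max_left _ _).trans hK)
  have hKd' : Kd ≤ K := (le_max_left _ _).trans ((le_max_right _ _).trans hK)
  have hK1 : 1 ≤ K := (le_max_right _ _).trans ((le_max_right _ _).trans hK)
  have hKr : (0 : ℝ) < K := by exact_mod_cast hK1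
  have hNr : (0 : ℝ) < N := by exact_mod_cast hN1
  have hlogK : 64 / ε + 2 ≤ Real.log K := by
    rw [Real.le_log_iff_exp_le hKr]
    exact hKd.trans (by exact_mod_cast hKd')
  have hlogK2 : 2 ≤ Real.log K := by
    have : 0 ≤ 64 / ε := by positivity
    linarith
  have hlogKε : 64 ≤ ε * Real.log K := by
    have h1 : 64 / ε ≤ Real.log K := by linarith
    rw [div_le_iff₀ hε] at h1
    linarith
  have hlogN : Real.log (x0 + 1) ≤ η * Real.log N := by
    have h1 : Real.log (x0 + 1) / η ≤ Real.log N := by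
      rw [Real.le_log_iff_exp_le hNr]
      exact hNd.trans (by exact_mod_cast hNd')
    rw [div_le_iff₀ hη0] at h1
    linarith
  set W : Finset ℕ := Finset.Ioc (N / K) N with hW
  -- the decomposition
  obtain ⟨J, c, A, hJ, hc, hS, hcutF⟩ := hC (N + k + 1) (pL N) (pL_nonneg N)
    (pL_sum N (N + k + 1) hN1 (by omega)) F hF
  have hcutr0 : ∀ f : Fin k → ℕ → ℝ, (∀ i t, |f i t| ≤ 1) →
      |EpL k N (fun ℓ => (F ℓ - ∑ j, c j * (if ∀ i, ℓ i ∈ A j i then (1 : ℝ) else 0)) *
        ∏ i, f i (ℓ i))| ≤ δ₁ := hcutF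
  set S : (Fin k → ℕ) → ℝ := fun ℓ => ∑ j, c j * (if ∀ i, ℓ i ∈ A j i then (1 : ℝ) else 0)
    with hSdef
  set r : (Fin k → ℕ) → ℝ := fun ℓ => F ℓ - S ℓ with hr
  have hcutr : ∀ f : Fin k → ℕ → ℝ, (∀ i t, |f i t| ≤ 1) →
      |EpL k N (fun ℓ => r ℓ * ∏ i, f i (ℓ i))| ≤ δ₁ := hcutr0
  have hr2 : ∀ ℓ, |r ℓ| ≤ 2 := by
    intro ℓ
    have h1 : |S ℓ| ≤ 1 := hS ℓ
    have h2 := abs_sub (F ℓ) (S ℓ)
    have h3 := hF ℓ
    show |F ℓ - S ℓ| ≤ 2
    linarith
  have hprod : ∀ (f : Fin k → ℕ → ℝ), (∀ i t, |f i t| ≤ 1) → ∀ ℓ : Fin k → ℕ,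
      |∏ i, f i (ℓ i)| ≤ 1 := by
    intro f hf ℓ
    rw [Finset.abs_prod]
    exact Finset.prod_le_one (fun i _ => abs_nonneg _) fun i _ => hf i (ℓ i)
  have hhalf : ∀ (f : Fin k → ℕ → ℝ), (∀ i t, |f i t| ≤ 1) → ∀ ℓ : Fin k → ℕ,
      |1 / 2 * r ℓ * ∏ i, f i (ℓ i)| ≤ 1 := by
    intro f hf ℓ
    rw [abs_mul, abs_mul, abs_of_pos (by norm_num : (0 : ℝ) < 1 / 2)]
    have h3 := hr2 ℓ
    have h4 := hprod f hf ℓ
    have h5 := abs_nonneg (r ℓ)
    have h6 := abs_nonneg (∏ i, f i (ℓ i))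
    nlinarith
  -- the cut norm of `r / 2` at large scales
  have hcutM : ∀ M : ℕ, M ≤ N → η * Real.log N ≤ Real.log M →
      ∀ f : Fin k → ℕ → ℝ, (∀ i t, |f i t| ≤ 1) →
        |Ep k M (fun ℓ => (1 / 2 * r ℓ) * ∏ i, f i (ℓ i))| ≤ τ + δ₁ / 2 := by
    intro M hMN hM f hf
    have h2 := hcut N hNb M hMN hM (fun ℓ => 1 / 2 * r ℓ * ∏ i, f i (ℓ i)) (hhalf f hf)
    have h3 : EpL k N (fun ℓ => 1 / 2 * r ℓ * ∏ i, f i (ℓ i)) =
        1 / 2 * EpL k N (fun ℓ => r ℓ * ∏ i, f i (ℓ i)) := by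
      unfold EpL
      rw [Finset.mul_sum]
      refine Finset.sum_congr rfl fun ℓ _ => ?_
      ring
    rw [h3] at h2
    have h4 := hcutr f hf
    have h5 := abs_le.1 h2
    have h6 := abs_le.1 h4
    rw [abs_le]
    constructor <;> linarith [h5.1, h5.2, h6.1, h6.2]
  have hbig : ∀ M : ℕ, η * Real.log N ≤ Real.log M → 1 ≤ M ∧ x0 ≤ M := by
    intro M hM
    have h1 := hlogN.trans hM
    have h0 : 0 ≤ Real.log ((x0 : ℝ) + 1) := Real.log_nonneg (by
      have : (0 : ℝ) ≤ x0 := Nat.cast_nonneg _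
      linarith)
    by_cases hM0 : M = 0
    · subst hM0
      have hlogN0 : 0 < Real.log N := by
        have h5 : Real.log K ≤ Real.log N := Real.log_le_log hKr (by exact_mod_cast hKN)
        linarith
      have h6 : 0 < η * Real.log N := by positivity
      simp at hM
      linarith
    · have hM1 : 1 ≤ M := Nat.one_le_iff_ne_zero.2 hM0
      have hMr : (0 : ℝ) < M := by exact_mod_cast hM1
      refine ⟨hM1, ?_⟩
      have h2 := (Real.log_le_log_iff (by positivity) hMr).1 h1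
      have h3 : (x0 : ℝ) ≤ M := by linarith
      exact_mod_cast h3
  have hcutMs : ∀ M : ℕ, M ≤ N → η * Real.log N ≤ Real.log M →
      ∀ f : Fin k → ℕ → ℝ, (∀ i t, |f i t| ≤ 1) →
        |Ep k M (fun ℓ => (1 / 2 * sh r ℓ) * ∏ i, f i (ℓ i))| ≤ δ₁ := by
    intro M hMN hM f hf
    obtain ⟨hM1, hMx⟩ := hbig M hM
    have hf' : ∀ (i : Fin k) (t : ℕ), |(fun (i : Fin k) (t : ℕ) => f i (t - 1)) i t| ≤ 1 :=
      fun i t => hf i _
    have h1 := hcutM M hMN hM (fun i t => f i (t - 1)) hf'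
    have h2 := ep_shift M hM1 (δ₁ / (4 * (k + 1))) (hx0 M hMx) k
      (fun ℓ => 1 / 2 * r ℓ * ∏ i, f i (ℓ i - 1)) (hhalf (fun i t => f i (t - 1)) hf')
    have h3 : sh (fun ℓ : Fin k → ℕ => 1 / 2 * r ℓ * ∏ i, f i (ℓ i - 1)) =
        fun ℓ => (1 / 2 * sh r ℓ) * ∏ i, f i (ℓ i) := by
      funext ℓ
      unfold sh
      simp only [Nat.add_sub_cancel]
    rw [h3] at h2
    have h4 : (k : ℝ) * (δ₁ / (4 * (k + 1))) ≤ δ₁ / 4 := by
      rw [← mul_div_assoc, div_le_div_iff₀ (by positivity) (by norm_num)]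
      nlinarith
    have h5 := abs_le.1 h1
    have h6 := abs_le.1 (h2.trans h4)
    rw [abs_le]
    constructor <;> linarith [h5.1, h5.2, h6.1, h6.2]
  -- (i) the box part
  have hboxS : ∑ M ∈ W, (1 / (M : ℝ)) * |Em k M S - Em k M (sh S)| ≤ ε / 4 * Real.log K := by
    have h1 : ∀ M ∈ W, (1 / (M : ℝ)) * |Em k M S - Em k M (sh S)| ≤ ∑ j, (1 / (M : ℝ)) *
        |Em k M (fun ℓ => if ∀ i, ℓ i ∈ A j i then (1 : ℝ) else 0) -
          Em k M (fun ℓ => if ∀ i, ℓ i + 1 ∈ A j i then (1 : ℝ) else 0)| := by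
      intro M _
      rw [← Finset.mul_sum]
      refine mul_le_mul_of_nonneg_left ?_ (by positivity)
      have e1 : sh S = fun ℓ => ∑ j, c j * (if ∀ i, ℓ i + 1 ∈ A j i then (1 : ℝ) else 0) := rfl
      rw [e1, hSdef, Em_fsum k M J (fun j ℓ => c j * (if ∀ i, ℓ i ∈ A j i then (1 : ℝ) else 0)),
        Em_fsum k M J (fun j ℓ => c j * (if ∀ i, ℓ i + 1 ∈ A j i then (1 : ℝ) else 0)),
        ← Finset.sum_sub_distrib]
      refine (Finset.abs_sum_le_sum_abs _ _).trans ?_
      refine Finset.sum_le_sum fun j _ => ?_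
      rw [Em_smul', Em_smul', ← mul_sub, abs_mul]
      have h3 := mul_le_mul_of_nonneg_right (hc j) (abs_nonneg
        (Em k M (fun ℓ => if ∀ i, ℓ i ∈ A j i then (1 : ℝ) else 0) -
          Em k M (fun ℓ => if ∀ i, ℓ i + 1 ∈ A j i then (1 : ℝ) else 0)))
      rw [one_mul] at h3
      exact h3
    refine (Finset.sum_le_sum h1).trans ?_
    rw [Finset.sum_comm]
    have h2 : ∀ j ∈ (Finset.univ : Finset (Fin J)), ∑ M ∈ W, (1 / (M : ℝ)) *
        |Em k M (fun ℓ => if ∀ i, ℓ i ∈ A j i then (1 : ℝ) else 0) -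
          Em k M (fun ℓ => if ∀ i, ℓ i + 1 ∈ A j i then (1 : ℝ) else 0)| ≤
        ε / (4 * (C + 1)) * Real.log K := fun j _ => hbox N K hNc hKc hKN (A j)
    refine (Finset.sum_le_sum h2).trans ?_
    rw [Finset.sum_const, Finset.card_univ, Fintype.card_fin, nsmul_eq_mul]
    have h3 : (J : ℝ) ≤ C + 1 := by
      have : (J : ℝ) ≤ C := by exact_mod_cast hJ
      linarith
    have h4 : 0 ≤ ε / (4 * ((C : ℝ) + 1)) * Real.log K := by positivity
    calc (J : ℝ) * (ε / (4 * ((C : ℝ) + 1)) * Real.log K) ≤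
        ((C : ℝ) + 1) * (ε / (4 * ((C : ℝ) + 1)) * Real.log K) :=
          mul_le_mul_of_nonneg_right h3 h4
      _ = ε / 4 * Real.log K := by
          field_simp
  -- (ii) the remainder, large scales
  have hgen : ∀ ρ : (Fin k → ℕ) → ℝ, (∀ ℓ, |ρ ℓ| ≤ 2) →
      (∀ M : ℕ, M ≤ N → η * Real.log N ≤ Real.log M → ∀ f : Fin k → ℕ → ℝ,
        (∀ i t, |f i t| ≤ 1) → |Ep k M (fun ℓ => (1 / 2 * ρ ℓ) * ∏ i, f i (ℓ i))| ≤ δ₁) →
      ∑ M ∈ W.filter (fun M : ℕ => η * Real.log N ≤ Real.log M),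
        (1 / (M : ℝ)) * |Em k M ρ| ≤ ε / 8 * Real.log K := by
    intro ρ hρ hρc
    have h1 := hcore N K hNa hKa hKN (fun M ℓ => if η * Real.log N ≤ Real.log M then
      1 / 2 * ρ ℓ else 0) (fun M ℓ => by
        by_cases h : η * Real.log N ≤ Real.log M
        · simp only [if_pos h]
          rw [abs_mul, abs_of_pos (by norm_num : (0 : ℝ) < 1 / 2)]
          linarith [hρ ℓ]
        · simp only [if_neg h]
          rw [abs_zero]
          exact zero_le_one) (fun M hM => by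
        intro f hf
        by_cases h : η * Real.log N ≤ Real.log M
        · simp only [if_pos h]
          exact hρc M (Finset.mem_Ioc.1 hM).2 h f hf
        · simp only [if_neg h]
          have h0 : Ep k M (fun ℓ => 0 * ∏ i, f i (ℓ i)) = 0 := by
            unfold Ep
            simp
          rw [h0, abs_zero]
          exact hδ₁.le)
    have h2 : ∑ M ∈ W.filter (fun M : ℕ => η * Real.log N ≤ Real.log M),
          (1 / (M : ℝ)) * (1 / 2 * |Em k M ρ|) ≤ ε / 16 * Real.log K := by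
      refine le_trans ?_ h1
      rw [Finset.sum_filter]
      refine Finset.sum_le_sum fun M _ => ?_
      by_cases h : η * Real.log N ≤ Real.log M
      · simp only [if_pos h]
        rw [Em_smul', abs_mul, abs_of_pos (by norm_num : (0 : ℝ) < 1 / 2)]
      · simp only [if_neg h]
        positivity
    have h3 : ∑ M ∈ W.filter (fun M : ℕ => η * Real.log N ≤ Real.log M),
          (1 / (M : ℝ)) * (1 / 2 * |Em k M ρ|) = 1 / 2 * ∑ M ∈ W.filter
      (fun M : ℕ => η * Real.log N ≤ Real.log M), (1 / (M : ℝ)) * |Em k M ρ| := by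
      rw [Finset.mul_sum]
      refine Finset.sum_congr rfl fun M _ => ?_
      ring
    rw [h3] at h2
    linarith
  have hrem1 := hgen r hr2 (fun M hMN hM f hf => by
    have := hcutM M hMN hM f hf
    linarith)
  have hrem2 := hgen (sh r) (fun ℓ => hr2 _) hcutMs
  -- (iii) the small scales
  have hsmall : ∑ M ∈ W.filter (fun M : ℕ => ¬ η * Real.log N ≤ Real.log M),
      (1 / (M : ℝ)) * |Em k M F - Em k M (sh F)| ≤ 2 + ε / 16 * Real.log K := by
    have htriv : ∀ M ∈ W, |Em k M F - Em k M (sh F)| ≤ 2 := by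
      intro M _
      have h2 := Em_abs_le_of k M F hF
      have h3 := Em_abs_le_of k M (sh F) (fun ℓ => hF _)
      have := abs_sub (Em k M F) (Em k M (sh F))
      linarith
    rcases Finset.eq_empty_or_nonempty
      (W.filter (fun M : ℕ => ¬ η * Real.log N ≤ Real.log M)) with hemp | ⟨M0, hM0⟩
    · rw [hemp, Finset.sum_empty]
      positivity
    · rw [Finset.mem_filter, not_le] at hM0
      have hM0W := Finset.mem_Ioc.1 hM0.1
      have hM0pos : (0 : ℝ) < M0 := by
        have : 0 < M0 := lt_of_le_of_lt (Nat.zero_le _) hM0W.1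
        exact_mod_cast this
      have h1 : (N : ℝ) < M0 * K := by
        have := (Nat.div_lt_iff_lt_mul hK1).1 hM0W.1
        exact_mod_cast this
      have h2 : Real.log N ≤ Real.log M0 + Real.log K := by
        rw [← Real.log_mul hM0pos.ne' hKr.ne']
        exact Real.log_le_log hNr h1.le
      have hlogN0 : 0 ≤ Real.log N := Real.log_nonneg (by exact_mod_cast hN1)
      have h3 : Real.log N ≤ 2 * Real.log K := by
        have h4 : η * Real.log N ≤ 1 / 2 * Real.log N := mul_le_mul_of_nonneg_right hη2 hlogN0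
        linarith [hM0.2]
      calc ∑ M ∈ W.filter (fun M : ℕ => ¬ η * Real.log N ≤ Real.log M),
            (1 / (M : ℝ)) * |Em k M F - Em k M (sh F)|
          ≤ ∑ M ∈ W.filter (fun M : ℕ => ¬ η * Real.log N ≤ Real.log M), (1 / (M : ℝ)) * 2 := by
            refine Finset.sum_le_sum fun M hM => ?_
            exact mul_le_mul_of_nonneg_left (htriv M (Finset.mem_filter.1 hM).1) (by positivity)
        _ ≤ ∑ M ∈ (Finset.Icc 1 N).filter (fun M : ℕ => ¬ η * Real.log N ≤ Real.log M),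
            (1 / (M : ℝ)) * 2 := by
            apply Finset.sum_le_sum_of_subset_of_nonneg
            · intro M hM
              rw [Finset.mem_filter] at hM ⊢
              have h5 := Finset.mem_Ioc.1 hM.1
              refine ⟨Finset.mem_Icc.2 ⟨?_, h5.2⟩, hM.2⟩
              exact Nat.succ_le_of_lt (lt_of_le_of_lt (Nat.zero_le _) h5.1)
            · intro M _ _
              positivity
        _ = 2 * ∑ M ∈ (Finset.Icc 1 N).filter (fun M : ℕ => ¬ η * Real.log N ≤ Real.log M),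
            (1 / (M : ℝ)) := by
            rw [← Finset.sum_mul, mul_comm]
        _ ≤ 2 * (1 + η * Real.log N) :=
            mul_le_mul_of_nonneg_left (gw_small N hN1 η hη0) (by norm_num)
        _ ≤ 2 + ε / 16 * Real.log K := by
            have h6 : η * Real.log N ≤ ε / 64 * (2 * Real.log K) :=
              mul_le_mul hη1 h3 hlogN0 (by positivity)
            linarith
  -- assembly
  have hlargeF : ∑ M ∈ W.filter (fun M : ℕ => η * Real.log N ≤ Real.log M),
      (1 / (M : ℝ)) * |Em k M F - Em k M (sh F)| ≤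
      ε / 4 * Real.log K + ε / 8 * Real.log K + ε / 8 * Real.log K := by
    have h1 : ∀ M : ℕ, |Em k M F - Em k M (sh F)| ≤ |Em k M S - Em k M (sh S)| + |Em k M r| +
        |Em k M (sh r)| := by
      intro M
      have e1 : Em k M r = Em k M F - Em k M S := Em_sub' k M F S
      have e2 : Em k M (sh r) = Em k M (sh F) - Em k M (sh S) := Em_sub' k M (sh F) (sh S)
      have e3 : Em k M F - Em k M (sh F) = (Em k M S - Em k M (sh S)) + Em k M r -
          Em k M (sh r) := by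
        rw [e1, e2]
        ring
      rw [e3]
      have h2 := abs_sub ((Em k M S - Em k M (sh S)) + Em k M r) (Em k M (sh r))
      have h3 := abs_add_le (Em k M S - Em k M (sh S)) (Em k M r)
      linarith
    calc ∑ M ∈ W.filter (fun M : ℕ => η * Real.log N ≤ Real.log M),
          (1 / (M : ℝ)) * |Em k M F - Em k M (sh F)|
        ≤ ∑ M ∈ W.filter (fun M : ℕ => η * Real.log N ≤ Real.log M),
          ((1 / (M : ℝ)) * |Em k M S - Em k M (sh S)| + (1 / (M : ℝ)) * |Em k M r| +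
            (1 / (M : ℝ)) * |Em k M (sh r)|) := by
          refine Finset.sum_le_sum fun M _ => ?_
          rw [← mul_add, ← mul_add]
          exact mul_le_mul_of_nonneg_left (h1 M) (by positivity)
      _ = ∑ M ∈ W.filter (fun M : ℕ => η * Real.log N ≤ Real.log M),
            (1 / (M : ℝ)) * |Em k M S - Em k M (sh S)| +
          ∑ M ∈ W.filter (fun M : ℕ => η * Real.log N ≤ Real.log M),
            (1 / (M : ℝ)) * |Em k M r| +
          ∑ M ∈ W.filter (fun M : ℕ => η * Real.log N ≤ Real.log M),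
            (1 / (M : ℝ)) * |Em k M (sh r)| := by
          rw [Finset.sum_add_distrib, Finset.sum_add_distrib]
      _ ≤ ε / 4 * Real.log K + ε / 8 * Real.log K + ε / 8 * Real.log K := by
          refine add_le_add (add_le_add ?_ hrem1) hrem2
          refine le_trans ?_ hboxS
          apply Finset.sum_le_sum_of_subset_of_nonneg (Finset.filter_subset _ _)
          intro M _ _
          positivity
  have hfinal : ∑ M ∈ W, (1 / (M : ℝ)) * |Em k M F - Em k M (sh F)| ≤ ε * Real.log K := by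
    rw [← Finset.sum_filter_add_sum_filter_not W (fun M : ℕ => η * Real.log N ≤ Real.log M)]
    have h1 := add_le_add hlargeF hsmall
    refine h1.trans ?_
    nlinarith
  exact hfinal

end DG
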