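import Pool.Agent.Helper47.DG.Blocks

/-!
# DG-B8: the majorant property

* `nuB_nonneg`: `Helper13.Om.Atr_even_ge` with values `0` or `1` gives
  `Atr (2 (b + j)) S g ≥ ∏ (1 - g) ≥ 0`; `VP_pos`.
* `nuB_prime`: if no prime of `PP N E` divides `1 + Q m` then all the functions `g` vanish on the
  blocks, `Atr r S 0 = 1` (only the empty set contributes), so `nuB = (VP N E)⁻¹`. A prime
  `p = 1 + Q m ≥ 2 ^ (E + 1)` is not divisible by a prime `q < 2 ^ (E + 1)`.
* `VP_lower`: if `N < 2 ^ (E + 1)`: the primes below `2 ^ (E + 1)` are those `≤ N` and `PP N E`;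
  `∏_{p ≤ N} (1 - 1/p) = φ(N!) / N!` (`Nat.totient_eq_mul_prod_factors`, the prime divisors of `N!`
  are the primes `≤ N`: `Nat.Prime.dvd_factorial`), so `VP N E * (φ(N!) / N!) =
  ∏_{p < 2 ^ (E + 1)} (1 - 1/p) ≤ 1 / log (2 ^ (E + 1))` by `Helper13.Om.mertens_prod`.
-/

set_option autoImplicit false

namespace DG

open Finset Filter Topology

/-- the truncated sum is `1` if all the densities vanish -/
private lemma Atr_zero' (r : ℕ) (S : Finset ℕ) (g : ℕ → ℝ) (h : ∀ q ∈ S, g q = 0) :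
    Helper13.Om.Atr r S g = 1 := by
  classical
  unfold Helper13.Om.Atr
  rw [Finset.sum_eq_single ∅]
  · simp
  · intro T hT hne
    obtain ⟨q, hq⟩ := Finset.nonempty_iff_ne_empty.2 hne
    have h0 : g q = 0 := h q (Finset.mem_powerset.1 hT hq)
    rw [Finset.prod_eq_zero hq h0, mul_zero, ite_self]
  · intro hn
    exact absurd (Finset.empty_mem_powerset S) hn

theorem nuB_nonneg (Q N E b : ℕ) (m : ℤ) : 0 ≤ nuB Q N E b m := by
  unfold nuB
  refine mul_nonneg (inv_nonneg.2 (VP_pos N E).le) (Finset.prod_nonneg fun j _ => ?_)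
  refine le_trans ?_ (Helper13.Om.Atr_even_ge (SS N E j) _ ?_ ?_ (b + j))
  · refine Finset.prod_nonneg fun q _ => ?_
    split_ifs <;> norm_num
  · intro q _
    split_ifs <;> norm_num
  · intro q _
    split_ifs <;> norm_num

theorem nuB_prime (Q N E b : ℕ) (m : ℤ) (p : ℕ) (hp : p.Prime) (hpE : 2 ^ (E + 1) ≤ p)
    (h : (p : ℤ) = 1 + Q * m) : nuB Q N E b m = (VP N E)⁻¹ := by
  unfold nuB
  rw [Finset.prod_eq_one, mul_one]
  intro j hj
  refine Atr_zero' _ _ _ fun q hq => ?_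
  have hqP : q ∈ PP N E := by
    rw [← SS_union]
    exact Finset.mem_biUnion.2 ⟨j, hj, hq⟩
  obtain ⟨⟨_, hq2⟩, hq3⟩ := mem_PP.1 hqP
  refine if_neg fun hd => ?_
  rw [← h] at hd
  have hd' : q ∣ p := by exact_mod_cast hd
  have he : q = p := (Nat.prime_dvd_prime_iff_eq hq3 hp).1 hd'
  omega

theorem VP_lower (N E : ℕ) (hN : N < 2 ^ (E + 1)) :
    ((N.factorial.totient : ℝ) / N.factorial) * ((E + 1) * Real.log 2) ≤ (VP N E)⁻¹ := by
  have hV := VP_pos N E
  have h2E : 2 ≤ 2 ^ (E + 1) := by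
    have := Nat.one_le_two_pow (n := E)
    rw [pow_succ]
    omega
  have hmer := Helper13.Om.mertens_prod (2 ^ (E + 1)) h2E
  have hl2 : 0 < Real.log 2 := Real.log_pos one_lt_two
  have hlog : Real.log ((2 ^ (E + 1) : ℕ) : ℝ) = (E + 1) * Real.log 2 := by
    push_cast
    rw [Real.log_pow]
    push_cast
    ring
  rw [hlog] at hmer
  have hfac : ((N.factorial.totient : ℝ) / N.factorial) =
      ∏ p ∈ (N + 1).primesBelow, (1 - 1 / (p : ℝ)) := by
    have h := Nat.totient_eq_mul_prod_factors N.factorial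
    have h' : ((N.factorial.totient : ℝ)) =
        N.factorial * ∏ p ∈ N.factorial.primeFactors, (1 - (p : ℝ)⁻¹) := by
      have h2 := congrArg (Rat.cast : ℚ → ℝ) h
      push_cast at h2
      exact h2
    have hS : N.factorial.primeFactors = (N + 1).primesBelow := by
      ext p
      rw [Nat.mem_primeFactors, Nat.mem_primesBelow]
      constructor
      · rintro ⟨h1, h2, _⟩
        exact ⟨Nat.lt_succ_of_le ((h1.dvd_factorial).1 h2), h1⟩
      · rintro ⟨h1, h2⟩
        exact ⟨h2, (h2.dvd_factorial).2 (Nat.le_of_lt_succ h1), N.factorial_ne_zero⟩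
    have hf0 : ((N.factorial : ℕ) : ℝ) ≠ 0 := by exact_mod_cast N.factorial_ne_zero
    rw [h', mul_div_cancel_left₀ _ hf0, hS]
    refine Finset.prod_congr rfl fun p _ => ?_
    rw [one_div]
  have hun : (2 ^ (E + 1)).primesBelow = (N + 1).primesBelow ∪ PP N E := by
    ext p
    rw [Finset.mem_union, Nat.mem_primesBelow, Nat.mem_primesBelow, mem_PP]
    constructor
    · rintro ⟨h1, h2⟩
      by_cases hp : p < N + 1
      · exact Or.inl ⟨hp, h2⟩
      · exact Or.inr ⟨⟨by omega, h1⟩, h2⟩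
    · rintro (⟨h1, h2⟩ | ⟨⟨h1, h2⟩, h3⟩)
      · exact ⟨by omega, h2⟩
      · exact ⟨h2, h3⟩
  have hdis : Disjoint (N + 1).primesBelow (PP N E) := by
    rw [Finset.disjoint_left]
    intro p h1 h2
    rw [Nat.mem_primesBelow] at h1
    rw [mem_PP] at h2
    omega
  rw [hun, Finset.prod_union hdis, ← hfac] at hmer
  have hE : 0 < ((E : ℝ) + 1) * Real.log 2 := by positivity
  change _ * VP N E ≤ _ at hmer
  rw [le_div_iff₀ hE] at hmer
  rw [← one_div, le_div_iff₀ hV]
  calc _ = (N.factorial.totient : ℝ) / N.factorial * VP N E * ((E + 1) * Real.log 2) := by ring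
    _ ≤ 1 := hmer

end DG
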