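import Pool.Agent.Helper47.DG.NuSum
import Pool.Agent.Helper47.DG.Maj

/-!
# DG-B9: the interface `SVX`

Put `n = k + 1`. Let `C₁, b₁` be from `nu_cube n`. Take `c = 1`, `b0 = max b₁ 1`,
`C = 2 ^ (n + 2) * C₁ + 320 * 2 ^ n` (any larger constant is fine). Given `b ≥ b0`, `D ≥ 1`; let
`N ≥ N0(b)` and let `Y` be large (after `N`). Put `E = EE n b Y = log2 Y / (2^n * 80 (b + 1))`
(natural division), `Q = N!`, `M = MM D Q Y`, `t = tt Q Y`, `ν = nuB Q N E b`.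

(i) `nuB_nonneg`. (ii) For a prime `p = 1 + Q m ≥ Y`: `2 ^ (E + 1) ≤ Y ≤ p` (as `E + 1 ≤ log2 Y` for
`Y` large and `2 ^ log2 Y ≤ Y`), so `ν m = (VP N E)⁻¹` (`nuB_prime`), and `N < 2 ^ (E + 1)` for `Y`
large, so by `VP_lower` it is enough that `log Y / (C b) ≤ (E + 1) log 2`:
`(E + 1) * (2^n * 80 (b + 1)) ≥ log2 Y + 1` (`Nat.lt_succ_mul_div`...), `log Y ≤ (log2 Y + 1) log 2`
and `b + 1 ≤ 2 b`, `C ≥ 160 * 2 ^ n`.
(iii) By `cube_sum_eq` (with `b := fun z => ν (t + z) - 1`) and `nu_cube` the cube average is at most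
`M^(-(n+1)) (C₁ e^(-b) (2M)^(n+1) + 2^(2^n) 2^(2^n (20 E (b+1) + E + 1)) 2^(n+1) (n+1) (2M)^n)
 = 2^(n+1) C₁ e^(-b) + (constant of n) * 2^(2^n (20 E (b+1) + E + 1)) / M`.
Now `2^n * 20 E (b + 1) ≤ log2 Y / 4` and `2^n (E + 1) ≤ log2 Y / 80 + 2^n`, so
`2^(2^n (20 E (b+1) + E + 1)) ≤ 2^(2^n) * Y^(1/2)`, and `M ≥ Y / (D Q)`, so the last term tends to
`0` as `Y → ∞` and is eventually at most `e^(-b)`. Primes `q > N` do not divide `Q = N!`
(`Nat.Prime.dvd_factorial`).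
-/

set_option autoImplicit false

namespace DG

open Finset Filter Topology

theorem svx (k : ℕ) : SVX k := by
  sorry

end DG
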