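import Pool.Agent.Helper47.DG.Defs

/-!
# DG-B1: means of periodic functions on `ℤ × ℤ^n`

Proofs.
* `card_bx`: product of two cardinalities (`Finset.card_product`, `Fintype.card_piFinset`,
  `Int.card_Ico`).
* `sum_shift`: the map `v ↦ ((x + v).1 % d, fun i => (x + v).2 i % d)` is a bijection of `bx n d`
  onto itself (inverse: the same with `-x`) and `f (x + v) = f (its image)` by periodicity
  (`Int.emod_emod_of_dvd`, `Int.dvd_sub_self_of_emod_eq`...). `Finset.sum_nbij'`.
* `mb_mul`: with `D = d * e`: the map `v ↦ (v mod d, v mod e)` from `bx n (d * e)` to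
  `bx n d ×ˢ bx n e` is a bijection (injective by the Chinese remainder theorem: if `d` and `e`
  divide a difference then so does `d * e` by `IsCoprime.mul_dvd`; both sides have the same
  cardinality, `Finset.surj_on_of_inj_on_of_card_le` or `Finset.eq_of_subset_of_card_le`).
  By periodicity `f v * g v = f (v mod d) * g (v mod e)`. Sum and divide by
  `(d e)^(n+1) = d^(n+1) e^(n+1)`.
* the others are immediate from the definition and `card_bx`.
-/

set_option autoImplicit false

namespace DG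

open Finset Filter Topology

theorem card_bx (n d : ℕ) : (bx n d).card = d ^ (n + 1) := by
  unfold bx
  rw [Finset.card_product, Fintype.card_piFinset]
  simp [Int.card_Ico, pow_succ, mul_comm]

private theorem mem_bx {n d : ℕ} {v : XX n} :
    v ∈ bx n d ↔ (0 ≤ v.1 ∧ v.1 < d) ∧ ∀ i, 0 ≤ v.2 i ∧ v.2 i < d := by
  unfold bx
  rw [Finset.mem_product, Fintype.mem_piFinset]
  simp [Finset.mem_Ico]

/-- reduction modulo `d` of all coordinates -/
private def rd {n : ℕ} (d : ℕ) (v : XX n) : XX n := (v.1 % d, fun i => v.2 i % d)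

private theorem rd_mem {n d : ℕ} (hd : 0 < d) (v : XX n) : rd d v ∈ bx n d := by
  have hd' : (0 : ℤ) < d := by exact_mod_cast hd
  rw [mem_bx]
  exact ⟨⟨Int.emod_nonneg _ hd'.ne', Int.emod_lt_of_pos _ hd'⟩,
    fun i => ⟨Int.emod_nonneg _ hd'.ne', Int.emod_lt_of_pos _ hd'⟩⟩

private theorem rd_eq {n d : ℕ} {v : XX n} (hv : v ∈ bx n d) : rd d v = v := by
  rw [mem_bx] at hv
  refine Prod.ext (Int.emod_eq_of_lt hv.1.1 hv.1.2) (funext fun i => ?_)
  exact Int.emod_eq_of_lt (hv.2 i).1 (hv.2 i).2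

private theorem per_rd {n d : ℕ} {f : XX n → ℝ} (hf : Per d f) (v : XX n) : f (rd d v) = f v := by
  apply hf
  · exact Int.modEq_iff_dvd.mp (Int.mod_modEq v.1 d).symm
  · intro i
    exact Int.modEq_iff_dvd.mp (Int.mod_modEq (v.2 i) d).symm

private theorem rd_congr {n d : ℕ} {v w : XX n} (h1 : (d : ℤ) ∣ v.1 - w.1)
    (h2 : ∀ i, (d : ℤ) ∣ v.2 i - w.2 i) : rd d v = rd d w := by
  refine Prod.ext ?_ (funext fun i => ?_)
  · exact (Int.modEq_iff_dvd.mpr h1).symm
  · exact (Int.modEq_iff_dvd.mpr (h2 i)).symm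

private theorem rd_dvd1 {n d : ℕ} (v : XX n) : (d : ℤ) ∣ v.1 - (rd d v).1 :=
  Int.modEq_iff_dvd.mp (Int.mod_modEq v.1 d)

private theorem rd_dvd2 {n d : ℕ} (v : XX n) (i : Fin n) : (d : ℤ) ∣ v.2 i - (rd d v).2 i :=
  Int.modEq_iff_dvd.mp (Int.mod_modEq (v.2 i) d)

theorem sum_shift {n d : ℕ} (hd : 0 < d) {f : XX n → ℝ} (hf : Per d f) (x : XX n) :
    ∑ v ∈ bx n d, f (x + v) = ∑ v ∈ bx n d, f v := by
  refine Finset.sum_nbij' (fun v => rd d (x + v)) (fun v => rd d (v - x))
    (fun v _ => rd_mem hd _) (fun v _ => rd_mem hd _) ?_ ?_ (fun v _ => (per_rd hf _).symm)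
  · intro v hv
    have : rd d (rd d (x + v) - x) = rd d v := by
      apply rd_congr
      · have e : (rd d (x + v) - x).1 - v.1 = -((x + v).1 - (rd d (x + v)).1) := by
          show (rd d (x + v)).1 - x.1 - v.1 = -((x.1 + v.1) - (rd d (x + v)).1)
          ring
        rw [e, Int.dvd_neg]
        exact rd_dvd1 _
      · intro i
        have e : (rd d (x + v) - x).2 i - v.2 i = -((x + v).2 i - (rd d (x + v)).2 i) := by
          show (rd d (x + v)).2 i - x.2 i - v.2 i = -((x.2 i + v.2 i) - (rd d (x + v)).2 i)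
          ring
        rw [e, Int.dvd_neg]
        exact rd_dvd2 _ i
    show rd d (rd d (x + v) - x) = v
    rw [this, rd_eq hv]
  · intro v hv
    have : rd d (x + rd d (v - x)) = rd d v := by
      apply rd_congr
      · have e : (x + rd d (v - x)).1 - v.1 = -((v - x).1 - (rd d (v - x)).1) := by
          show x.1 + (rd d (v - x)).1 - v.1 = -((v.1 - x.1) - (rd d (v - x)).1)
          ring
        rw [e, Int.dvd_neg]
        exact rd_dvd1 _
      · intro i
        have e : (x + rd d (v - x)).2 i - v.2 i = -((v - x).2 i - (rd d (v - x)).2 i) := by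
          show x.2 i + (rd d (v - x)).2 i - v.2 i = -((v.2 i - x.2 i) - (rd d (v - x)).2 i)
          ring
        rw [e, Int.dvd_neg]
        exact rd_dvd2 _ i
    show rd d (x + rd d (v - x)) = v
    rw [this, rd_eq hv]

theorem Per.mul_left {n d : ℕ} {f : XX n → ℝ} (hf : Per d f) (e : ℕ) : Per (d * e) f := by
  intro x y h1 h2
  have hde : (d : ℤ) ∣ ((d * e : ℕ) : ℤ) := by exact_mod_cast Dvd.intro e rfl
  exact hf x y (hde.trans h1) fun i => hde.trans (h2 i)

theorem mb_mul {n d e : ℕ} (hd : 0 < d) (he : 0 < e) (hde : Nat.Coprime d e) {f g : XX n → ℝ}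
    (hf : Per d f) (hg : Per e g) :
    Per (d * e) (fun x => f x * g x) ∧
      mb n (d * e) (fun x => f x * g x) = mb n d f * mb n e g := by
  have hg' : Per (d * e) g := by rw [mul_comm]; exact hg.mul_left d
  have hf' : Per (d * e) f := hf.mul_left e
  refine ⟨fun x y h1 h2 => ?_, ?_⟩
  · show f x * g x = f y * g y
    rw [hf' x y h1 h2, hg' x y h1 h2]
  · have hinj : Set.InjOn (fun v : XX n => (rd d v, rd e v)) (bx n (d * e) : Set (XX n)) := by
      intro v hv w hw hvw
      simp only [Prod.mk.injEq] at hvw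
      rw [Finset.mem_coe] at hv hw
      have hcop : IsCoprime (d : ℤ) (e : ℤ) := Nat.isCoprime_iff_coprime.mpr hde
      have key : rd (d * e) v = rd (d * e) w := by
        apply rd_congr
        · push_cast
          apply hcop.mul_dvd
          · have h := congrArg Prod.fst hvw.1
            exact Int.modEq_iff_dvd.mp (show w.1 ≡ v.1 [ZMOD d] from h.symm)
          · have h := congrArg Prod.fst hvw.2
            exact Int.modEq_iff_dvd.mp (show w.1 ≡ v.1 [ZMOD e] from h.symm)
        · intro i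
          push_cast
          apply hcop.mul_dvd
          · have h := congrFun (congrArg Prod.snd hvw.1) i
            exact Int.modEq_iff_dvd.mp (show w.2 i ≡ v.2 i [ZMOD d] from h.symm)
          · have h := congrFun (congrArg Prod.snd hvw.2) i
            exact Int.modEq_iff_dvd.mp (show w.2 i ≡ v.2 i [ZMOD e] from h.symm)
      rwa [rd_eq hv, rd_eq hw] at key
    have himg : (bx n (d * e)).image (fun v : XX n => (rd d v, rd e v)) = bx n d ×ˢ bx n e := by
      apply Finset.eq_of_subset_of_card_le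
      · intro p hp
        obtain ⟨v, -, rfl⟩ := Finset.mem_image.mp hp
        exact Finset.mem_product.mpr ⟨rd_mem hd v, rd_mem he v⟩
      · rw [Finset.card_image_of_injOn hinj, Finset.card_product, card_bx, card_bx, card_bx,
          mul_pow]
    have hsum : ∑ v ∈ bx n (d * e), f v * g v = (∑ v ∈ bx n d, f v) * ∑ v ∈ bx n e, g v := by
      rw [Finset.sum_mul_sum, ← Finset.sum_product', ← himg, Finset.sum_image hinj]
      refine Finset.sum_congr rfl fun v _ => ?_
      show f v * g v = f (rd d v) * g (rd e v)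
      rw [per_rd hf, per_rd hg]
    unfold mb
    rw [hsum]
    push_cast
    rw [mul_pow, mul_div_mul_comm]

theorem mb_const {n d : ℕ} (hd : 0 < d) (c : ℝ) : mb n d (fun _ => c) = c := by
  have hd' : ((d : ℝ) ^ (n + 1)) ≠ 0 := by positivity
  unfold mb
  rw [Finset.sum_const, card_bx, nsmul_eq_mul]
  push_cast
  field_simp

theorem mb_sum {n d : ℕ} {ι : Type} (s : Finset ι) (c : ι → ℝ) (f : ι → XX n → ℝ) :
    mb n d (fun x => ∑ i ∈ s, c i * f i x) = ∑ i ∈ s, c i * mb n d (f i) := by
  unfold mb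
  rw [Finset.sum_comm, Finset.sum_div]
  refine Finset.sum_congr rfl fun i _ => ?_
  rw [← Finset.mul_sum, mul_div_assoc]

theorem mb_nonneg {n d : ℕ} {f : XX n → ℝ} (h : ∀ x, 0 ≤ f x) : 0 ≤ mb n d f :=
  div_nonneg (Finset.sum_nonneg fun v _ => h v) (by positivity)

private theorem mb_mono {n d : ℕ} {f g : XX n → ℝ} (h : ∀ x, f x ≤ g x) : mb n d f ≤ mb n d g :=
  div_le_div_of_nonneg_right (Finset.sum_le_sum fun v _ => h v) (by positivity)

theorem mb_le_one {n d : ℕ} (hd : 0 < d) {f : XX n → ℝ} (h : ∀ x, f x ≤ 1) : mb n d f ≤ 1 :=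
  (mb_mono h).trans (mb_const hd 1).le

theorem abs_mb_le_one {n d : ℕ} (hd : 0 < d) {f : XX n → ℝ} (h : ∀ x, |f x| ≤ 1) :
    |mb n d f| ≤ 1 :=
  abs_le.mpr ⟨(mb_const (n := n) hd (-1)).ge.trans (mb_mono fun x => (abs_le.mp (h x)).1),
    mb_le_one hd fun x => (abs_le.mp (h x)).2⟩

end DG
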