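import Pool.Agent.Helper47.DG.Region

/-!
# DG-B3: calculus of `NiceX`

Proofs: exactly as in `Pool/Agent/Helper13/Om/Nice.lean` (lemmas `Nice.mono`, `nice_one`,
`nice_lin`, `Nice.mul`, `Nice.sum_le`, `nice_prod_blocks`), with residue classes replaced by
periodic functions.
* `nice_per`: one function, `ι = Unit`.
* `nice_linX`: sigma type.
* `NiceX.mul`: index type `ι × ι'`, moduli `d i * d' i'` (coprime because the prime divisors lie in
  disjoint sets), `mb_mul` for the mean values, `|g g'| ≤ 1`.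
* `NiceX.sum_le`: linearity and `om_sum` for each `g i`, `d i ≤ B`.
* `nice_prodX`: induction on `J`, using `NiceX.mul`; start with the constant function `1`
  (`nice_per` with `d = 1`, `S = ∅`).
-/

set_option autoImplicit false

namespace DG

open Finset Filter Topology

theorem NiceX.mono {n : ℕ} {S S' : Finset ℕ} {A A' B B' E : ℝ} {f : XX n → ℝ}
    (h : NiceX S A B E f) (hS : S ⊆ S') (hA : A ≤ A') (hB : B ≤ B') : NiceX S' A' B' E f := by
  sorry

theorem NiceX.nonneg {n : ℕ} {S : Finset ℕ} {A B E : ℝ} {f : XX n → ℝ}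
    (h : NiceX S A B E f) : 0 ≤ A := by
  sorry

theorem nice_per {n : ℕ} {S : Finset ℕ} {d : ℕ} (hd : 0 < d) (hS : ∀ p, p.Prime → p ∣ d → p ∈ S)
    {g : XX n → ℝ} (hg : Per d g) (h1 : ∀ x, |g x| ≤ 1) : NiceX S 1 d (mb n d g) g := by
  sorry

theorem nice_linX {n : ℕ} {J : Type} (s : Finset J) {S : Finset ℕ} {B : ℝ} (A E w : J → ℝ)
    (f : J → XX n → ℝ) (h : ∀ j ∈ s, NiceX S (A j) B (E j) (f j)) :
    NiceX S (∑ j ∈ s, |w j| * A j) B (∑ j ∈ s, w j * E j) (fun x => ∑ j ∈ s, w j * f j x) := by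
  sorry

theorem NiceX.mul {n : ℕ} {S S' : Finset ℕ} {A A' B B' E E' : ℝ} {f f' : XX n → ℝ}
    (hS : Disjoint S S') (hB : 0 ≤ B) (h : NiceX S A B E f) (h' : NiceX S' A' B' E' f') :
    NiceX (S ∪ S') (A * A') (B * B') (E * E') (fun x => f x * f' x) := by
  sorry

theorem NiceX.sum_le {n : ℕ} {S : Finset ℕ} {A B E : ℝ} {f : XX n → ℝ} (hB : 0 ≤ B)
    (h : NiceX S A B E f) (M : ℕ) :
    |∑ x ∈ Om n M, f x - ((Om n M).card : ℝ) * E| ≤
      A * (2 ^ (n + 1) * ((n + 1) * B * (2 * M) ^ n)) := by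
  sorry

theorem nice_prodX {n : ℕ} (J : ℕ) (S : ℕ → Finset ℕ)
    (hd : ∀ i j, i ≠ j → Disjoint (S i) (S j)) (A B E : ℕ → ℝ) (hB : ∀ j, 0 ≤ B j)
    (f : ℕ → XX n → ℝ) (h : ∀ j < J, NiceX (S j) (A j) (B j) (E j) (f j)) :
    NiceX ((range J).biUnion S) (∏ j ∈ range J, A j) (∏ j ∈ range J, B j) (∏ j ∈ range J, E j)
      (fun x => ∏ j ∈ range J, f j x) := by
  sorry

end DG
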