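import Pool.Agent.Helper47.DG.Ratio
import Pool.Agent.Helper47.DG.Block
import Pool.Agent.Helper47.DG.Blocks

/-!
# DG-B7: correlations of the majorant over the cube region

Let `C₁, b0` be from `block_ratio n`. Fix `A` and put `a = #A ≤ 2 ^ n`, `S_j = SS N E j`,
`J = E + 1`. For `j < J` apply `fb_nice` with `S = S_j`, `Z = ZZb N E j`, `y = yy n (b + j)` and the
constant level function `R = 2 (b + j)`: `∑_{r ∈ A} R = a * (2 (b + j))`. This gives `E_j` with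
`NiceX S_j ((1 + #S_j)^(a 2(b+j))) (Z^(a 2(b+j))) E_j (Fb Q t A R S_j)` and the hypothesis of
`block_ratio` (there `2 (b + j) + 1`; `∑_{r ∈ A} y⁻¹ ^ (R + 1) = a * y⁻¹ ^ (2 (b+j) + 1)`). Hence
`e_j := E_j / V_j ^ a` satisfies `|e_j - 1| ≤ C₁ (exp (-(b + j)) + ∑_{q ∈ S_j} 1/q²)` and
`∑_j |e_j - 1| ≤ C₁ (2 exp (-b) + ∑_{q ∈ PP N E} 1/q²) ≤ C₁ (2 exp (-b) + 1/N)` (blocks disjoint;
`∑_{q > N} 1/q² ≤ 1/N`: `Pool.Agent.Helper83.PM.sum_inv_sq_le`). For `N ≥ exp b` this is at most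
`3 C₁ exp (-b)`. By `Finset.norm_prod_one_add_sub_one_le`,
`|∏ e_j - 1| ≤ exp (3 C₁ exp (-b)) - 1 ≤ 3 C₁ exp (3 C₁) exp (-b) =: C exp (-b)`.

`nice_prodX`: `f x := ∏_{j < J} Fb Q t A (2 (b + j)) S_j x` is `NiceX (PP N E)` with mean `∏ E_j`,
mass times modulus at most `2 ^ (a * (20 E (b + 1)))` (`mass_prod`), and
`∏_{r ∈ A} nuB Q N E b (t + vt r x) = (VP N E)⁻¹ ^ a * f x` (exchange of the two products;
`ind Q t r x q` is the function in `nuB` for `m = t + vt r x`), `∏ V_j = VP` (`VP_eq`). So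
`∑_{x ∈ Om} ∏_{r ∈ A} nuB = VP⁻ᵃ ∑ f x = #Om * ∏ e_j + VP⁻ᵃ * error`, and
`VP⁻ᵃ ≤ 2 ^ (2 ^ n * (E + 1))` (`VP_inv_le`, and `VP⁻¹ ≥ 1`). `NiceX.sum_le` gives the error.
-/

set_option autoImplicit false

namespace DG

open Finset Filter Topology

theorem nu_sum (n : ℕ) : ∃ (C : ℝ) (b0 : ℕ), 1 ≤ C ∧ ∀ b : ℕ, b0 ≤ b → ∃ N0 : ℕ, ∀ N : ℕ, N0 ≤ N →
    ∀ Q : ℕ, (∀ q : ℕ, q.Prime → N < q → ¬ q ∣ Q) →
    ∀ (E M : ℕ) (t : ℤ) (A : Finset (Finset (Fin n))),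
    |∑ x ∈ Om n M, ∏ r ∈ A, nuB Q N E b (t + vt r x) - ((Om n M).card : ℝ)| ≤
      C * Real.exp (-(b : ℝ)) * ((Om n M).card : ℝ) +
        2 ^ (2 ^ n * (20 * E * (b + 1) + (E + 1))) *
          (2 ^ (n + 1) * ((n + 1) * (2 * M) ^ n)) := by
  sorry

/-- The cube averages of `ν - 1`. -/
theorem nu_cube (n : ℕ) : ∃ (C : ℝ) (b0 : ℕ), 1 ≤ C ∧ ∀ b : ℕ, b0 ≤ b → ∃ N0 : ℕ, ∀ N : ℕ, N0 ≤ N →
    ∀ Q : ℕ, (∀ q : ℕ, q.Prime → N < q → ¬ q ∣ Q) → ∀ (E M : ℕ) (t : ℤ),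
    |∑ x ∈ Om n M, ∏ r : Finset (Fin n), (nuB Q N E b (t + vt r x) - 1)| ≤
      C * Real.exp (-(b : ℝ)) * (2 * M) ^ (n + 1) +
        2 ^ (2 ^ n) * (2 ^ (2 ^ n * (20 * E * (b + 1) + (E + 1))) *
          (2 ^ (n + 1) * ((n + 1) * (2 * M) ^ n))) := by
  -- expand the product over all subsets `A` of the set of vertices (`Finset.prod_sub` or
  -- `Finset.prod_add` with `-1`): the sum is `∑_A (-1)^(2^n - #A) (#Om + error_A)`, the signed sum of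
  -- the constants is `0` (`Finset.sum_pow_mul_eq_add_pow`/`Finset.prod_add` for `(1 - 1)^(2^n) = 0`),
  -- there are `2 ^ (2 ^ n)` sets `A`; constant `2 ^ (2 ^ n) * C`, and `card_Om_le`.
  sorry

end DG
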