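import Pool.Agent.Helper47.DG.Dens
import Pool.Agent.Helper83.PM.Mert

/-!
# DG-B6: the mean of one block divided by the normalising product

Put `a = #A ≤ 2 ^ n`, `V = ∏_{q ∈ S} (1 - 1/q)`, `σ_q = sgm n Q t A q`, `w_q` = the inner sum,
`y = yy n b = (2 b + 1) / (8 (4 * 2 ^ n + 1))`. Let `b0` be so large that `y ≥ 8` for `b ≥ b0`
(for instance `b0 = 32 * (4 * 2 ^ n + 1)`).

1. `∏ (1 + y w_q) ≤ exp (y ∑ w_q)` and by `sum_rho`, `∑_{q ∈ S} w_q ≤ a ∑ 1/q + 2^a ∑ 1/q² ≤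
   4 * 2^n + 1`, because `∑_{q ∈ S} 1/q² ≤ ∑_{q > N} 1/q² ≤ 1/N ≤ 2^(-2^n)` (telescoping; see
   `Pool.Agent.Helper83.PM.sum_inv_sq_le` in `Helper83/PM/Mert.lean`).
   So `|E - ∏ σ_q| ≤ a y^(-(2b+1)) exp ((2b+1)/8) ≤ 2^n exp (-(2b+1)(log 8 - 1/8)) ≤ 2^n exp (-b)`.
2. `V ≥ exp (-2 ∑ 1/q) ≥ exp (-8)` (`1 - x ≥ exp (-2x)` for `0 ≤ x ≤ 1/2`), hence
   `V^(-a) ≤ exp (8 * 2^n)`.
3. `σ_q / (1 - 1/q)^a = 1 + θ_q` with `|θ_q| ≤ C' / q²`, `C' = 2 * 2^(2^n) * 2^(2^n)`: by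
   `sgm_close` and `|(1 - x)^a - (1 - a x)| ≤ 2^a x²` for `0 ≤ x ≤ 1` (induction on `a`), and
   `(1 - 1/q)^a ≥ 2^(-2^n)`. By `Finset.norm_prod_one_add_sub_one_le`
   `|∏ (1 + θ_q) - 1| ≤ exp (∑ |θ_q|) - 1 ≤ exp (C') * ∑ |θ_q|` (as `∑ |θ_q| ≤ C'`, and
   `exp u - 1 ≤ u exp u`), which is at most `exp (C') C' ∑ 1/q²`.
4. Add: `E / V^a - 1 = (E - ∏ σ_q) / V^a + (∏ (1 + θ_q) - 1)`.
-/

set_option autoImplicit false

namespace DG

open Finset Filter Topology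

/-- the auxiliary parameter -/
noncomputable def yy (n b : ℕ) : ℝ := (2 * b + 1) / (8 * (4 * 2 ^ n + 1))

theorem one_sub_pow_close (a : ℕ) (x : ℝ) (h0 : 0 ≤ x) (h1 : x ≤ 1) :
    |(1 - x) ^ a - (1 - a * x)| ≤ 2 ^ a * x ^ 2 := by
  induction a with
  | zero => simp; positivity
  | succ a ih =>
    have e : (1 - x) ^ (a + 1) - (1 - ((a + 1 : ℕ) : ℝ) * x) =
        (1 - x) * ((1 - x) ^ a - (1 - a * x)) + a * x ^ 2 := by
      push_cast; ring
    rw [e]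
    have ha : (a : ℝ) ≤ 2 ^ a := by
      exact_mod_cast (Nat.lt_two_pow_self (n := a)).le
    calc |(1 - x) * ((1 - x) ^ a - (1 - a * x)) + a * x ^ 2|
        ≤ |(1 - x) * ((1 - x) ^ a - (1 - a * x))| + |(a : ℝ) * x ^ 2| := abs_add_le _ _
      _ ≤ 1 * (2 ^ a * x ^ 2) + 2 ^ a * x ^ 2 := by
          rw [abs_mul, abs_of_nonneg (by linarith : (0 : ℝ) ≤ 1 - x),
            abs_of_nonneg (by positivity : (0 : ℝ) ≤ (a : ℝ) * x ^ 2)]
          have : (1 - x) * |(1 - x) ^ a - (1 - a * x)| ≤ 1 * (2 ^ a * x ^ 2) :=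
            mul_le_mul (by linarith) ih (abs_nonneg _) (by norm_num)
          have h2 : (a : ℝ) * x ^ 2 ≤ 2 ^ a * x ^ 2 :=
            mul_le_mul_of_nonneg_right ha (by positivity)
          linarith
      _ = 2 ^ (a + 1) * x ^ 2 := by ring

private theorem exp_neg_two_le (x : ℝ) (h0 : 0 ≤ x) (h1 : x ≤ 1 / 2) :
    Real.exp (-(2 * x)) ≤ 1 - x := by
  -- `exp (-2x) ≤ 1/(1+2x) ≤ 1 - x` iff `1 ≤ (1-x)(1+2x) = 1 + x - 2x²`
  have h2 : 1 + 2 * x ≤ Real.exp (2 * x) := by linarith [Real.add_one_le_exp (2 * x)]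
  rw [Real.exp_neg]
  have h3 : (Real.exp (2 * x))⁻¹ ≤ (1 + 2 * x)⁻¹ := by
    apply inv_anti₀ (by linarith) h2
  refine h3.trans ?_
  rw [inv_le_iff_one_le_mul₀ (by linarith)]
  nlinarith

private theorem sum_sq_le (N : ℕ) (hN : 1 ≤ N) (S : Finset ℕ) (hS : ∀ q ∈ S, N < q) :
    ∑ q ∈ S, 1 / (q : ℝ) ^ 2 ≤ 1 / (N : ℝ) := by
  refine le_trans ?_ (Pool.Agent.Helper83.PM.sum_inv_sq_le N (S.sup id) hN)
  refine Finset.sum_le_sum_of_subset_of_nonneg ?_ (fun _ _ _ => by positivity)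
  intro q hq
  rw [mem_Ioc]
  exact ⟨hS q hq, Finset.le_sup (f := id) hq⟩

theorem block_ratio (n : ℕ) : ∃ (C : ℝ) (b0 : ℕ), 1 ≤ C ∧ ∀ b : ℕ, b0 ≤ b → 1 ≤ yy n b ∧
    ∀ (N Q : ℕ) (t : ℤ) (A : Finset (Finset (Fin n))) (S : Finset ℕ) (E : ℝ), 2 ^ (2 ^ n) ≤ N →
    (∀ q ∈ S, q.Prime ∧ ¬ q ∣ Q ∧ N < q) → ∑ q ∈ S, 1 / (q : ℝ) ≤ 4 →
    |E - ∏ q ∈ S, sgm n Q t A q| ≤ ((A.card : ℝ) * ((yy n b)⁻¹) ^ (2 * b + 1)) *
      ∏ q ∈ S, (1 + yy n b * ∑ B ∈ A.powerset.erase ∅, rho n Q t q B) →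
    |E / (∏ q ∈ S, (1 - 1 / (q : ℝ))) ^ A.card - 1| ≤
      C * (Real.exp (-(b : ℝ)) + ∑ q ∈ S, 1 / (q : ℝ) ^ 2) := by
  set C' : ℝ := 2 * 2 ^ (2 ^ n) * 2 ^ (2 ^ n) with hC'
  have hC'pos : 0 < C' := by positivity
  set C1 : ℝ := Real.exp (8 * 2 ^ n) * 2 ^ n with hC1
  have hC1pos : 1 ≤ C1 := by
    have h1 : 1 ≤ Real.exp (8 * 2 ^ n) := Real.one_le_exp (by positivity)
    have h2 : (1 : ℝ) ≤ 2 ^ n := one_le_pow₀ (by norm_num)
    nlinarith
  refine ⟨C1 + C' * Real.exp C', 32 * (4 * 2 ^ n + 1), ?_, ?_⟩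
  · have : 0 ≤ C' * Real.exp C' := by positivity
    linarith
  intro b hb
  have hM : (0 : ℝ) < 4 * 2 ^ n + 1 := by positivity
  have hb' : 32 * (4 * 2 ^ n + 1) ≤ (b : ℝ) := by exact_mod_cast hb
  have hy8 : 8 ≤ yy n b := by
    unfold yy
    rw [le_div_iff₀ (by positivity)]
    nlinarith
  refine ⟨by linarith, ?_⟩
  intro N Q t A S E hN hS hsum hE
  have hAcard : A.card ≤ 2 ^ n := by
    have := Finset.card_le_univ A
    simpa using this
  have hN1 : 1 ≤ N := le_trans (Nat.one_le_two_pow) hN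
  have hN2 : 2 ≤ N := by
    refine le_trans ?_ hN
    calc 2 = 2 ^ 1 := by norm_num
      _ ≤ 2 ^ (2 ^ n) := Nat.pow_le_pow_right (by norm_num) Nat.one_le_two_pow
  set s2 : ℝ := ∑ q ∈ S, 1 / (q : ℝ) ^ 2 with hs2
  have hs2nn : 0 ≤ s2 := Finset.sum_nonneg (fun _ _ => by positivity)
  have hs2N : s2 ≤ 1 / (N : ℝ) := sum_sq_le N hN1 S (fun q hq => (hS q hq).2.2)
  have hpowN : (2 : ℝ) ^ (2 ^ n) ≤ N := by exact_mod_cast hN
  have hNpos : (0 : ℝ) < N := by exact_mod_cast hN1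
  have hs2' : 2 ^ (2 ^ n) * s2 ≤ 1 := by
    calc 2 ^ (2 ^ n) * s2 ≤ N * (1 / (N : ℝ)) := mul_le_mul hpowN hs2N hs2nn hNpos.le
      _ = 1 := by field_simp
  have hpowA : (2 : ℝ) ^ A.card ≤ 2 ^ (2 ^ n) := pow_le_pow_right₀ (by norm_num) hAcard
  have hcardR : (A.card : ℝ) ≤ 2 ^ n := by exact_mod_cast hAcard
  -- facts about the primes
  have hq0 : ∀ q ∈ S, (0 : ℝ) < q := fun q hq => by
    exact_mod_cast (hS q hq).1.pos
  have hqhalf : ∀ q ∈ S, 1 / (q : ℝ) ≤ 1 / 2 := fun q hq => by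
    have h1 : 2 ≤ q := (hS q hq).1.two_le
    have h2 : (2 : ℝ) ≤ q := by exact_mod_cast h1
    exact one_div_le_one_div_of_le (by norm_num) h2
  have hw : ∑ q ∈ S, ∑ B ∈ A.powerset.erase ∅, rho n Q t q B ≤ 4 * 2 ^ n + 1 := by
    calc ∑ q ∈ S, ∑ B ∈ A.powerset.erase ∅, rho n Q t q B
        ≤ ∑ q ∈ S, ((A.card : ℝ) / q + 2 ^ A.card / (q : ℝ) ^ 2) :=
          Finset.sum_le_sum (fun q hq => sum_rho n Q t (hS q hq).1 (hS q hq).2.1 A)
      _ = A.card * ∑ q ∈ S, 1 / (q : ℝ) + 2 ^ A.card * s2 := by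
          rw [Finset.sum_add_distrib, hs2, Finset.mul_sum, Finset.mul_sum]
          congr 1 <;> exact Finset.sum_congr rfl (fun q _ => by ring)
      _ ≤ 2 ^ n * 4 + 2 ^ (2 ^ n) * s2 := by
          refine add_le_add ?_ (mul_le_mul_of_nonneg_right hpowA hs2nn)
          exact mul_le_mul hcardR hsum (Finset.sum_nonneg (fun _ _ => by positivity)) (by positivity)
      _ ≤ 4 * 2 ^ n + 1 := by linarith
  have hwnn : ∀ q ∈ S, 0 ≤ ∑ B ∈ A.powerset.erase ∅, rho n Q t q B := fun q _ =>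
    Finset.sum_nonneg (fun B _ => rho_nonneg n Q t q B)
  have hy0 : 0 < yy n b := by linarith
  have hprodle : ∏ q ∈ S, (1 + yy n b * ∑ B ∈ A.powerset.erase ∅, rho n Q t q B) ≤
      Real.exp ((2 * b + 1) / 8) := by
    calc ∏ q ∈ S, (1 + yy n b * ∑ B ∈ A.powerset.erase ∅, rho n Q t q B)
        ≤ ∏ q ∈ S, Real.exp (yy n b * ∑ B ∈ A.powerset.erase ∅, rho n Q t q B) := by
          refine Finset.prod_le_prod (fun q hq => ?_) (fun q hq => ?_)
          · have := mul_nonneg hy0.le (hwnn q hq); linarith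
          · linarith [Real.add_one_le_exp (yy n b * ∑ B ∈ A.powerset.erase ∅, rho n Q t q B)]
      _ = Real.exp (yy n b * ∑ q ∈ S, ∑ B ∈ A.powerset.erase ∅, rho n Q t q B) := by
          rw [← Real.exp_sum, Finset.mul_sum]
      _ ≤ Real.exp (yy n b * (4 * 2 ^ n + 1)) :=
          Real.exp_le_exp.mpr (mul_le_mul_of_nonneg_left hw hy0.le)
      _ = Real.exp ((2 * b + 1) / 8) := by
          congr 1; unfold yy; field_simp
  have hyinv : (yy n b)⁻¹ ≤ Real.exp (-2) := by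
    have h8 : (yy n b)⁻¹ ≤ (8 : ℝ)⁻¹ := inv_anti₀ (by norm_num) hy8
    refine h8.trans ?_
    rw [Real.exp_neg]
    apply inv_anti₀ (Real.exp_pos _)
    have : Real.exp 2 = Real.exp 1 * Real.exp 1 := by rw [← Real.exp_add]; norm_num
    rw [this]
    have h3 := Real.exp_one_lt_d9
    have h4 := Real.exp_pos 1
    nlinarith
  have hEle : |E - ∏ q ∈ S, sgm n Q t A q| ≤ 2 ^ n * Real.exp (-(b : ℝ)) := by
    refine hE.trans ?_
    calc ((A.card : ℝ) * ((yy n b)⁻¹) ^ (2 * b + 1)) *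
          ∏ q ∈ S, (1 + yy n b * ∑ B ∈ A.powerset.erase ∅, rho n Q t q B)
        ≤ (2 ^ n * (Real.exp (-2)) ^ (2 * b + 1)) * Real.exp ((2 * b + 1) / 8) := by
          refine mul_le_mul ?_ hprodle ?_ (by positivity)
          · refine mul_le_mul hcardR ?_ (by positivity) (by positivity)
            exact pow_le_pow_left₀ (by positivity) hyinv _
          · refine Finset.prod_nonneg (fun q hq => ?_)
            have := mul_nonneg hy0.le (hwnn q hq); linarith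
      _ = 2 ^ n * Real.exp (-(2 * (2 * b + 1)) + (2 * b + 1) / 8) := by
          rw [mul_assoc, ← Real.exp_nat_mul, ← Real.exp_add]
          congr 2; push_cast; ring
      _ ≤ 2 ^ n * Real.exp (-(b : ℝ)) := by
          refine mul_le_mul_of_nonneg_left (Real.exp_le_exp.mpr ?_) (by positivity)
          have : (0 : ℝ) ≤ b := Nat.cast_nonneg b
          linarith
  -- the normalising product
  set V : ℝ := ∏ q ∈ S, (1 - 1 / (q : ℝ)) with hV
  have hVlow : Real.exp (-8) ≤ V := by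
    calc Real.exp (-8) ≤ Real.exp (∑ q ∈ S, (-(2 * (1 / (q : ℝ))))) := by
          apply Real.exp_le_exp.mpr
          rw [Finset.sum_neg_distrib, ← Finset.mul_sum]
          linarith
      _ = ∏ q ∈ S, Real.exp (-(2 * (1 / (q : ℝ)))) := Real.exp_sum _ _
      _ ≤ V := by
          refine Finset.prod_le_prod (fun _ _ => (Real.exp_pos _).le) (fun q hq => ?_)
          exact exp_neg_two_le _ (by positivity) (hqhalf q hq)
  have hVpos : 0 < V := lt_of_lt_of_le (Real.exp_pos _) hVlow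
  have hVa : Real.exp (-(8 * 2 ^ n)) ≤ V ^ A.card := by
    calc Real.exp (-(8 * 2 ^ n)) ≤ Real.exp ((A.card : ℝ) * (-8)) := by
          apply Real.exp_le_exp.mpr; linarith
      _ = (Real.exp (-8)) ^ A.card := by rw [Real.exp_nat_mul]
      _ ≤ V ^ A.card := pow_le_pow_left₀ (Real.exp_pos _).le hVlow _
  have hVapos : 0 < V ^ A.card := pow_pos hVpos _
  -- the local factors
  set θ : ℕ → ℝ := fun q => sgm n Q t A q / (1 - 1 / (q : ℝ)) ^ A.card - 1 with hθ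
  have hθle : ∀ q ∈ S, |θ q| ≤ C' * (1 / (q : ℝ) ^ 2) := by
    intro q hq
    have hx0 : 0 ≤ 1 / (q : ℝ) := by positivity
    have hx1 := hqhalf q hq
    have hden : (2 ^ A.card)⁻¹ ≤ (1 - 1 / (q : ℝ)) ^ A.card := by
      rw [← inv_pow]
      exact pow_le_pow_left₀ (by norm_num) (by linarith) _
    have hdenpos : 0 < (1 - 1 / (q : ℝ)) ^ A.card := pow_pos (by linarith) _
    have h1 := sgm_close n Q t (hS q hq).1 (hS q hq).2.1 A
    have h2 := one_sub_pow_close A.card (1 / (q : ℝ)) hx0 (by linarith)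
    have h3 : |sgm n Q t A q - (1 - 1 / (q : ℝ)) ^ A.card| ≤ 2 * 2 ^ A.card * (1 / (q : ℝ) ^ 2) := by
      calc |sgm n Q t A q - (1 - 1 / (q : ℝ)) ^ A.card|
          = |(sgm n Q t A q - (1 - (A.card : ℝ) / q)) -
              ((1 - 1 / (q : ℝ)) ^ A.card - (1 - A.card * (1 / (q : ℝ))))| := by
            congr 1; ring
        _ ≤ |sgm n Q t A q - (1 - (A.card : ℝ) / q)| +
              |(1 - 1 / (q : ℝ)) ^ A.card - (1 - A.card * (1 / (q : ℝ)))| := abs_sub _ _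
        _ ≤ 2 ^ A.card / (q : ℝ) ^ 2 + 2 ^ A.card * (1 / (q : ℝ)) ^ 2 := add_le_add h1 h2
        _ = 2 * 2 ^ A.card * (1 / (q : ℝ) ^ 2) := by ring
    have e : θ q = (sgm n Q t A q - (1 - 1 / (q : ℝ)) ^ A.card) / (1 - 1 / (q : ℝ)) ^ A.card := by
      rw [hθ]; field_simp
    rw [e, abs_div, abs_of_pos hdenpos, div_le_iff₀ hdenpos]
    refine h3.trans ?_
    have h4 : 1 ≤ 2 ^ A.card * (1 - 1 / (q : ℝ)) ^ A.card := by
      have := mul_le_mul_of_nonneg_left hden (by positivity : (0 : ℝ) ≤ 2 ^ A.card)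
      rwa [mul_inv_cancel₀ (by positivity)] at this
    have hqq : (0 : ℝ) ≤ 1 / (q : ℝ) ^ 2 := by positivity
    calc 2 * 2 ^ A.card * (1 / (q : ℝ) ^ 2)
        ≤ 2 * 2 ^ A.card * (1 / (q : ℝ) ^ 2) * (2 ^ A.card * (1 - 1 / (q : ℝ)) ^ A.card) :=
          le_mul_of_one_le_right (by positivity) h4
      _ = (2 * 2 ^ A.card * 2 ^ A.card) * (1 / (q : ℝ) ^ 2) * (1 - 1 / (q : ℝ)) ^ A.card := by ring
      _ ≤ C' * (1 / (q : ℝ) ^ 2) * (1 - 1 / (q : ℝ)) ^ A.card := by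
          refine mul_le_mul_of_nonneg_right (mul_le_mul_of_nonneg_right ?_ hqq) hdenpos.le
          rw [hC']
          exact mul_le_mul (by linarith) hpowA (by positivity) (by positivity)
  have hsumθ : ∑ q ∈ S, ‖θ q‖ ≤ C' * s2 := by
    rw [hs2, Finset.mul_sum]
    exact Finset.sum_le_sum (fun q hq => by rw [Real.norm_eq_abs]; exact hθle q hq)
  have hs2le1 : s2 ≤ 1 := by
    refine hs2N.trans ?_
    rw [div_le_one hNpos]; exact_mod_cast hN1
  have hprodθ : |∏ q ∈ S, (1 + θ q) - 1| ≤ C' * Real.exp C' * s2 := by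
    have h1 := Finset.norm_prod_one_add_sub_one_le S θ
    rw [Real.norm_eq_abs] at h1
    refine h1.trans ?_
    have h2 : Real.exp (∑ q ∈ S, ‖θ q‖) ≤ Real.exp (C' * s2) := Real.exp_le_exp.mpr hsumθ
    have h3 : Real.exp (C' * s2) - 1 ≤ (C' * s2) * Real.exp (C' * s2) := by
      have := Real.add_one_le_exp (-(C' * s2))
      have h4 : Real.exp (C' * s2) * (-(C' * s2) + 1) ≤
          Real.exp (C' * s2) * Real.exp (-(C' * s2)) :=
        mul_le_mul_of_nonneg_left this (Real.exp_pos _).le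
      rw [← Real.exp_add] at h4
      simp only [add_neg_cancel, Real.exp_zero] at h4
      nlinarith
    have h4 : Real.exp (C' * s2) ≤ Real.exp C' := Real.exp_le_exp.mpr (by nlinarith)
    have h5 : (C' * s2) * Real.exp (C' * s2) ≤ (C' * s2) * Real.exp C' :=
      mul_le_mul_of_nonneg_left h4 (by positivity)
    nlinarith
  have hprodeq : ∏ q ∈ S, (1 + θ q) = (∏ q ∈ S, sgm n Q t A q) / V ^ A.card := by
    rw [hV, ← Finset.prod_pow, ← Finset.prod_div_distrib]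
    refine Finset.prod_congr rfl (fun q _ => ?_)
    rw [hθ]; ring
  have hfin : E / V ^ A.card - 1 = (E - ∏ q ∈ S, sgm n Q t A q) / V ^ A.card +
      (∏ q ∈ S, (1 + θ q) - 1) := by
    rw [hprodeq]; ring
  rw [hfin]
  have hfirst : |(E - ∏ q ∈ S, sgm n Q t A q) / V ^ A.card| ≤ C1 * Real.exp (-(b : ℝ)) := by
    rw [abs_div, abs_of_pos hVapos, div_le_iff₀ hVapos]
    refine hEle.trans ?_
    have h1 : 1 ≤ Real.exp (8 * 2 ^ n) * V ^ A.card := by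
      have := mul_le_mul_of_nonneg_left hVa (Real.exp_pos (8 * 2 ^ n)).le
      rwa [← Real.exp_add, add_neg_cancel, Real.exp_zero] at this
    calc 2 ^ n * Real.exp (-(b : ℝ))
        ≤ 2 ^ n * Real.exp (-(b : ℝ)) * (Real.exp (8 * 2 ^ n) * V ^ A.card) :=
          le_mul_of_one_le_right (by positivity) h1
      _ = C1 * Real.exp (-(b : ℝ)) * V ^ A.card := by rw [hC1]; ring
  calc |(E - ∏ q ∈ S, sgm n Q t A q) / V ^ A.card + (∏ q ∈ S, (1 + θ q) - 1)|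
      ≤ |(E - ∏ q ∈ S, sgm n Q t A q) / V ^ A.card| + |∏ q ∈ S, (1 + θ q) - 1| :=
        abs_add_le _ _
    _ ≤ C1 * Real.exp (-(b : ℝ)) + C' * Real.exp C' * s2 := add_le_add hfirst hprodθ
    _ ≤ (C1 + C' * Real.exp C') * (Real.exp (-(b : ℝ)) + s2) := by
        have h1 : 0 ≤ C' * Real.exp C' * Real.exp (-(b : ℝ)) := by positivity
        have h2 : 0 ≤ C1 * s2 := by positivity
        have h3 : (C1 + C' * Real.exp C') * (Real.exp (-(b : ℝ)) + s2) =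
            C1 * Real.exp (-(b : ℝ)) + C' * Real.exp C' * s2 +
              (C' * Real.exp C' * Real.exp (-(b : ℝ)) + C1 * s2) := by ring
        rw [h3]
        exact le_add_of_nonneg_right (add_nonneg h1 h2)

end DG
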