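import Pool.Agent.Helper47.DG.Mb

/-!
# DG-B2: summation of a periodic function over the region `Om n M`

Proof. Put `Ω = Om n M`. For every `v ∈ bx n d`: `∑_{x ∈ Ω} f x = ∑_{x : x + v ∈ Ω} f (x + v)`,
the sum being over the finite set `Ω - v` (image of `Ω` under `x ↦ x - v`). Hence
`|∑_{x ∈ Ω} f x - ∑_{x ∈ Ω} f (x + v)| ≤ #((Ω - v) \ Ω) + #(Ω \ (Ω - v))` (as `|f| ≤ 1`), and both
cardinalities are equal to `#(Ω \ (Ω - v))` because `Ω - v` and `Ω` have the same cardinality
(`card_shift`). Average over `v ∈ bx n d` (there are `d ^ (n + 1)` of them):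
`∑_v ∑_{x ∈ Ω} f (x + v) = ∑_{x ∈ Ω} ∑_v f (x + v) = #Ω * ∑_v f v` by `sum_shift`.

`card_diff`: `Ω \ (Ω - v)` is the set of `x ∈ Ω` with `x + v ∉ Ω`. As all coordinates of `v` are in
`[0, d)`, for every `r` we have `0 ≤ vt r v < (n + 1) d`. If `x ∈ Ω` and `x + v ∉ Ω`, then there is
`r` with `vt r x + vt r v ≥ M` (for `x + v` the conditions `vt ≥ 0` hold, and all conditions
`0 ≤ vt r < M` imply that the coordinates lie in `Ioo (-M) M`: use `r = ∅` and `r = {i}`).
So `M - (n + 1) d ≤ vt r x < M` for this `r`. For fixed `r` the map `x ↦ (x.2, M - 1 - vt r x)` is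
injective on those `x` and has values in
`piFinset (Ioo (-M) M) ×ˢ Ico 0 ((n + 1) d)`, a set of at most `(2 M)^n (n + 1) d` elements. There
are `2 ^ n` sets `r`.
-/

set_option autoImplicit false

namespace DG

open Finset Filter Topology

private theorem vt_add {n : ℕ} (r : Finset (Fin n)) (x v : XX n) :
    vt r (x + v) = vt r x + vt r v := by
  unfold vt
  rw [Prod.fst_add, Prod.snd_add]
  simp only [Pi.add_apply]
  rw [Finset.sum_add_distrib]
  ring

private theorem mem_bx {n d : ℕ} {v : XX n} (hv : v ∈ bx n d) :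
    (0 ≤ v.1 ∧ v.1 < d) ∧ ∀ i, 0 ≤ v.2 i ∧ v.2 i < d := by
  unfold bx at hv
  rw [Finset.mem_product, Finset.mem_Ico, Fintype.mem_piFinset] at hv
  exact ⟨hv.1, fun i => Finset.mem_Ico.1 (hv.2 i)⟩

private theorem vt_bx {n d : ℕ} {v : XX n} (hv : v ∈ bx n d) (r : Finset (Fin n)) :
    0 ≤ vt r v ∧ vt r v ≤ (n + 1) * d := by
  obtain ⟨h1, h2⟩ := mem_bx hv
  constructor
  · exact add_nonneg h1.1 (Finset.sum_nonneg fun i _ => (h2 i).1)
  · have h3 : ∑ i ∈ r, v.2 i ≤ ∑ _i ∈ r, (d : ℤ) := Finset.sum_le_sum fun i _ => (h2 i).2.le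
    rw [Finset.sum_const, nsmul_eq_mul] at h3
    have h4 : r.card ≤ n := by
      have := Finset.card_le_univ r
      rwa [Fintype.card_fin] at this
    have h5 : (r.card : ℤ) * d ≤ n * d := by
      apply mul_le_mul_of_nonneg_right
      · exact_mod_cast h4
      · positivity
    unfold vt
    have h6 := h1.2.le
    linarith

private theorem card_pi (n M : ℕ) :
    ((Fintype.piFinset (fun _ : Fin n => Ioo (-(M : ℤ)) M)).card : ℝ) ≤ (2 * M) ^ n := by
  rw [Fintype.card_piFinset_const, Int.card_Ioo, Nat.cast_pow]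
  refine pow_le_pow_left₀ (by positivity) ?_ n
  have h : ((M : ℤ) - -(M : ℤ) - 1).toNat ≤ 2 * M := by omega
  exact_mod_cast h

theorem mem_Om {n M : ℕ} (x : XX n) :
    x ∈ Om n M ↔ ∀ r : Finset (Fin n), 0 ≤ vt r x ∧ vt r x < M := by
  unfold Om
  rw [Finset.mem_filter]
  refine ⟨fun h => h.2, fun h => ⟨?_, h⟩⟩
  have h0 := h ∅
  simp only [vt, Finset.sum_empty, add_zero] at h0
  rw [Finset.mem_product, Finset.mem_Ioo, Fintype.mem_piFinset]
  refine ⟨⟨by omega, by omega⟩, fun i => ?_⟩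
  have h1 := h {i}
  simp only [vt, Finset.sum_singleton] at h1
  rw [Finset.mem_Ioo]
  constructor <;> omega

theorem card_Om_le (n M : ℕ) : ((Om n M).card : ℝ) ≤ (2 * M) ^ (n + 1) := by
  have h1 : (Om n M).card ≤ ((Ioo (-(M : ℤ)) M) ×ˢ
      (Fintype.piFinset (fun _ : Fin n => Ioo (-(M : ℤ)) M))).card :=
    Finset.card_le_card (Finset.filter_subset _ _)
  rw [Finset.card_product] at h1
  have h2 : ((Ioo (-(M : ℤ)) M).card : ℝ) ≤ 2 * M := by
    rw [Int.card_Ioo]
    have h : ((M : ℤ) - -(M : ℤ) - 1).toNat ≤ 2 * M := by omega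
    exact_mod_cast h
  calc ((Om n M).card : ℝ) ≤ (((Ioo (-(M : ℤ)) M).card *
        (Fintype.piFinset (fun _ : Fin n => Ioo (-(M : ℤ)) M)).card : ℕ) : ℝ) := by
        exact_mod_cast h1
    _ = ((Ioo (-(M : ℤ)) M).card : ℝ) *
        (Fintype.piFinset (fun _ : Fin n => Ioo (-(M : ℤ)) M)).card := by push_cast; rfl
    _ ≤ (2 * M) * (2 * M) ^ n := mul_le_mul h2 (card_pi n M) (by positivity) (by positivity)
    _ = (2 * M) ^ (n + 1) := by rw [pow_succ]; ring

theorem card_diff {n M d : ℕ} (v : XX n) (hv : v ∈ bx n d) :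
    (((Om n M).filter (fun x => x + v ∉ Om n M)).card : ℝ) ≤
      2 ^ n * ((n + 1) * d * (2 * M) ^ n) := by
  classical
  have hsub : (Om n M).filter (fun x => x + v ∉ Om n M) ⊆
      (Finset.univ : Finset (Finset (Fin n))).biUnion
        (fun r => (Om n M).filter (fun x => (M : ℤ) - (n + 1) * d ≤ vt r x)) := by
    intro x hx
    rw [Finset.mem_filter] at hx
    obtain ⟨hxM, hx2⟩ := hx
    rw [mem_Om] at hx2
    push Not at hx2
    obtain ⟨r, hr⟩ := hx2
    have h1 := (mem_Om x).1 hxM r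
    have h2 := vt_bx hv r
    rw [vt_add] at hr
    have h3 := hr (by omega)
    rw [Finset.mem_biUnion]
    refine ⟨r, Finset.mem_univ r, Finset.mem_filter.2 ⟨hxM, ?_⟩⟩
    linarith
  have hcard : ∀ r : Finset (Fin n),
      (((Om n M).filter (fun x => (M : ℤ) - (n + 1) * d ≤ vt r x)).card : ℝ) ≤
        (n + 1) * d * (2 * M) ^ n := by
    intro r
    have h1 : ((Om n M).filter (fun x => (M : ℤ) - (n + 1) * d ≤ vt r x)).card ≤
        ((Fintype.piFinset (fun _ : Fin n => Ioo (-(M : ℤ)) M)) ×ˢ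
          (Ico (0 : ℤ) (((n + 1) * d : ℕ) : ℤ))).card := by
      refine Finset.card_le_card_of_injOn (fun x => (x.2, (M : ℤ) - 1 - vt r x)) ?_ ?_
      · intro x hx
        rw [Finset.mem_coe, Finset.mem_filter] at hx
        have h2 := (mem_Om x).1 hx.1
        have h3 := hx.1
        unfold Om at h3
        rw [Finset.mem_filter, Finset.mem_product] at h3
        rw [Finset.mem_coe, Finset.mem_product, Finset.mem_Ico]
        have h4 := (h2 r).2
        have h5 := hx.2
        refine ⟨h3.1.2, ?_, ?_⟩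
        · change 0 ≤ (M : ℤ) - 1 - vt r x
          omega
        · change (M : ℤ) - 1 - vt r x < _
          push_cast
          linarith
      · intro x hx y hy hxy
        simp only [Prod.mk.injEq] at hxy
        obtain ⟨e1, e2⟩ := hxy
        have e3 : vt r x = vt r y := by linarith
        unfold vt at e3
        rw [e1] at e3
        exact Prod.ext (by linarith) e1
    rw [Finset.card_product, Int.card_Ico] at h1
    have h2 : ((((n + 1) * d : ℕ) : ℤ) - 0).toNat = (n + 1) * d := by omega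
    rw [h2] at h1
    calc (((Om n M).filter (fun x => (M : ℤ) - (n + 1) * d ≤ vt r x)).card : ℝ) ≤
        (((Fintype.piFinset (fun _ : Fin n => Ioo (-(M : ℤ)) M)).card * ((n + 1) * d) : ℕ) : ℝ) := by
          exact_mod_cast h1
      _ = ((Fintype.piFinset (fun _ : Fin n => Ioo (-(M : ℤ)) M)).card : ℝ) * ((n + 1) * d) := by
          push_cast
          rfl
      _ ≤ (2 * M) ^ n * ((n + 1) * d) :=
          mul_le_mul_of_nonneg_right (card_pi n M) (by positivity)
      _ = (n + 1) * d * (2 * M) ^ n := by ring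
  calc (((Om n M).filter (fun x => x + v ∉ Om n M)).card : ℝ) ≤
      (((Finset.univ : Finset (Finset (Fin n))).biUnion
        (fun r => (Om n M).filter (fun x => (M : ℤ) - (n + 1) * d ≤ vt r x))).card : ℝ) := by
        exact_mod_cast Finset.card_le_card hsub
    _ ≤ ∑ r : Finset (Fin n),
        (((Om n M).filter (fun x => (M : ℤ) - (n + 1) * d ≤ vt r x)).card : ℝ) := by
        exact_mod_cast Finset.card_biUnion_le
    _ ≤ ∑ _r : Finset (Fin n), (n + 1) * d * (2 * M : ℝ) ^ n :=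
        Finset.sum_le_sum fun r _ => hcard r
    _ = 2 ^ n * ((n + 1) * d * (2 * M) ^ n) := by
        rw [Finset.sum_const, Finset.card_univ, Fintype.card_finset, Fintype.card_fin,
          nsmul_eq_mul]
        push_cast
        ring

/-- Main statement. -/
theorem om_sum {n M d : ℕ} (hd : 0 < d) {f : XX n → ℝ} (hf : Per d f) (h1 : ∀ x, |f x| ≤ 1) :
    |∑ x ∈ Om n M, f x - ((Om n M).card : ℝ) * mb n d f| ≤
      2 ^ (n + 1) * ((n + 1) * d * (2 * M) ^ n) := by
  classical
  set Ω := Om n M with hΩ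
  set K : ℝ := 2 ^ n * ((n + 1) * d * (2 * M) ^ n) with hK
  have hdR : (0 : ℝ) < d := by exact_mod_cast hd
  have key : ∀ v ∈ bx n d, |∑ x ∈ Ω, f x - ∑ x ∈ Ω, f (x + v)| ≤ 2 * K := by
    intro v hv
    have hc := card_diff (M := M) v hv
    rw [← hK, ← hΩ] at hc
    have e1 : ∑ x ∈ Ω, f (x + v) = ∑ x ∈ Ω.filter (fun x => x + v ∈ Ω), f (x + v) +
        ∑ x ∈ Ω.filter (fun x => x + v ∉ Ω), f (x + v) :=
      (Finset.sum_filter_add_sum_filter_not Ω _ _).symm
    have e2 : ∑ x ∈ Ω, f x = ∑ x ∈ Ω.filter (fun x => x - v ∈ Ω), f x +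
        ∑ x ∈ Ω.filter (fun x => x - v ∉ Ω), f x :=
      (Finset.sum_filter_add_sum_filter_not Ω _ _).symm
    have e3 : ∑ x ∈ Ω.filter (fun x => x + v ∈ Ω), f (x + v) =
        ∑ x ∈ Ω.filter (fun x => x - v ∈ Ω), f x := by
      refine Finset.sum_nbij' (fun x => x + v) (fun x => x - v) ?_ ?_ ?_ ?_ ?_
      · intro x hx
        rw [Finset.mem_filter] at hx ⊢
        refine ⟨hx.2, ?_⟩
        rw [add_sub_cancel_right]
        exact hx.1
      · intro x hx
        rw [Finset.mem_filter] at hx ⊢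
        refine ⟨hx.2, ?_⟩
        rw [sub_add_cancel]
        exact hx.1
      · intro x _
        exact add_sub_cancel_right x v
      · intro x _
        exact sub_add_cancel x v
      · intro x _
        rfl
    have e4 : (Ω.filter (fun x => x + v ∈ Ω)).card = (Ω.filter (fun x => x - v ∈ Ω)).card := by
      refine Finset.card_nbij' (fun x => x + v) (fun x => x - v) ?_ ?_ ?_ ?_
      · intro x hx
        rw [Finset.mem_coe, Finset.mem_filter] at hx ⊢
        refine ⟨hx.2, ?_⟩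
        rw [add_sub_cancel_right]
        exact hx.1
      · intro x hx
        rw [Finset.mem_coe, Finset.mem_filter] at hx ⊢
        refine ⟨hx.2, ?_⟩
        rw [sub_add_cancel]
        exact hx.1
      · intro x _
        exact add_sub_cancel_right x v
      · intro x _
        exact sub_add_cancel x v
    have e5 := Finset.card_filter_add_card_filter_not (s := Ω) (fun x => x + v ∈ Ω)
    have e6 := Finset.card_filter_add_card_filter_not (s := Ω) (fun x => x - v ∈ Ω)
    have e7 : (Ω.filter (fun x => x - v ∉ Ω)).card = (Ω.filter (fun x => x + v ∉ Ω)).card := by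
      omega
    have b1 : |∑ x ∈ Ω.filter (fun x => x + v ∉ Ω), f (x + v)| ≤ K := by
      refine le_trans ?_ hc
      refine (Finset.abs_sum_le_sum_abs _ _).trans ?_
      refine (Finset.sum_le_sum fun x _ => h1 (x + v)).trans ?_
      rw [Finset.sum_const, nsmul_eq_mul, mul_one]
    have b2 : |∑ x ∈ Ω.filter (fun x => x - v ∉ Ω), f x| ≤ K := by
      refine le_trans ?_ hc
      refine (Finset.abs_sum_le_sum_abs _ _).trans ?_
      refine (Finset.sum_le_sum fun x _ => h1 x).trans ?_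
      rw [Finset.sum_const, nsmul_eq_mul, mul_one, e7]
    rw [e1, e2, e3]
    have e8 : ∑ x ∈ Ω.filter (fun x => x - v ∈ Ω), f x +
        ∑ x ∈ Ω.filter (fun x => x - v ∉ Ω), f x -
        (∑ x ∈ Ω.filter (fun x => x - v ∈ Ω), f x +
          ∑ x ∈ Ω.filter (fun x => x + v ∉ Ω), f (x + v)) =
        ∑ x ∈ Ω.filter (fun x => x - v ∉ Ω), f x -
          ∑ x ∈ Ω.filter (fun x => x + v ∉ Ω), f (x + v) := by ring
    rw [e8]
    refine (abs_sub _ _).trans ?_
    linarith
  have hsum : |∑ v ∈ bx n d, (∑ x ∈ Ω, f x - ∑ x ∈ Ω, f (x + v))| ≤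
      (d : ℝ) ^ (n + 1) * (2 * K) := by
    refine (Finset.abs_sum_le_sum_abs _ _).trans ?_
    refine (Finset.sum_le_sum key).trans ?_
    rw [Finset.sum_const, card_bx, nsmul_eq_mul]
    push_cast
    exact le_refl _
  rw [Finset.sum_sub_distrib, Finset.sum_const, card_bx, nsmul_eq_mul, Finset.sum_comm] at hsum
  have e9 : ∑ x ∈ Ω, ∑ v ∈ bx n d, f (x + v) = (Ω.card : ℝ) * ((d : ℝ) ^ (n + 1) * mb n d f) := by
    rw [Finset.sum_congr rfl fun x _ => sum_shift hd hf x, Finset.sum_const, nsmul_eq_mul]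
    congr 1
    unfold mb
    field_simp
  rw [e9] at hsum
  have hpos : (0 : ℝ) < (d : ℝ) ^ (n + 1) := pow_pos hdR _
  have e10 : (((d ^ (n + 1) : ℕ)) : ℝ) * ∑ x ∈ Ω, f x -
      (Ω.card : ℝ) * ((d : ℝ) ^ (n + 1) * mb n d f) =
      (d : ℝ) ^ (n + 1) * (∑ x ∈ Ω, f x - (Ω.card : ℝ) * mb n d f) := by
    push_cast
    ring
  rw [e10, abs_mul, abs_of_pos hpos] at hsum
  have h5 := le_of_mul_le_mul_left hsum hpos
  refine h5.trans (le_of_eq ?_)
  rw [hK, pow_succ]
  ring

/-- Rewriting of the cube sums of the interface. -/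
theorem cube_sum_eq (n M : ℕ) (b : ℤ → ℝ) :
    ∑ h ∈ Fintype.piFinset (fun _ : Fin n => Ioo (-(M : ℤ)) M), ∑ m ∈ range M,
      ∏ r : Finset (Fin n),
        (if 0 ≤ (m : ℤ) + ∑ i ∈ r, h i ∧ (m : ℤ) + ∑ i ∈ r, h i < M then
          b ((m : ℤ) + ∑ i ∈ r, h i) else 0) =
      ∑ x ∈ Om n M, ∏ r : Finset (Fin n), b (vt r x) := by
  classical
  have e1 : ∑ x ∈ Om n M, ∏ r : Finset (Fin n), b (vt r x) =
      ∑ h ∈ Fintype.piFinset (fun _ : Fin n => Ioo (-(M : ℤ)) M), ∑ m ∈ Ioo (-(M : ℤ)) M,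
        ∏ r : Finset (Fin n),
        (if 0 ≤ m + ∑ i ∈ r, h i ∧ m + ∑ i ∈ r, h i < M then b (m + ∑ i ∈ r, h i) else 0) := by
    unfold Om
    rw [Finset.sum_filter, Finset.sum_product, Finset.sum_comm]
    refine Finset.sum_congr rfl fun h _ => Finset.sum_congr rfl fun m _ => ?_
    rw [Finset.prod_ite_zero]
    simp only [Finset.mem_univ, true_implies]
    rfl
  rw [e1]
  refine Finset.sum_congr rfl fun h _ => ?_
  refine Finset.sum_of_injOn (fun m : ℕ => (m : ℤ)) ?_ ?_ ?_ ?_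
  · intro a _ b' _ hab
    exact Int.ofNat_inj.1 hab
  · intro m hm
    rw [Finset.mem_coe, Finset.mem_range] at hm
    rw [Finset.mem_coe, Finset.mem_Ioo]
    have h2 : -(M : ℤ) < (m : ℤ) ∧ (m : ℤ) < M := by omega
    exact h2
  · intro m hm hm2
    refine Finset.prod_eq_zero (Finset.mem_univ ∅) ?_
    rw [if_neg]
    simp only [Finset.sum_empty, add_zero]
    rintro ⟨h1, h2⟩
    refine hm2 ⟨m.toNat, ?_, ?_⟩
    · rw [Finset.mem_coe, Finset.mem_range]
      omega
    · simp only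
      omega
  · intro m _
    rfl

end DG
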